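import Mathlib
import Pool.Agent.N740.HK.Lim

/-!
# Separated windows: large deviations occur finitely or infinitely often (helper953)
-/

set_option autoImplicit false
set_option linter.unusedSectionVars false

open MeasureTheory Filter Set
open scoped ENNReal Topology NNReal

namespace Pool.Agent.N953.P2

open Pool.Agent.R528.RM Pool.Agent.N740.HK

variable {Ω : Type} {m0 : MeasurableSpace Ω} {μ : Measure Ω} [IsProbabilityMeasure μ]
  {ℱ : Filtration ℕ m0} {A : ℕ → Set Ω}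

/-- no success at the times `K, ..., K + m - 1` -/
def RR (D : ℕ → Set Ω) (K : ℕ) : ℕ → Set Ω
  | 0 => univ
  | m + 1 => RR D K m \ D (K + m)

lemma RR_meas {t : ℕ → ℕ} (ht : Monotone t) {D : ℕ → Set Ω} {K : ℕ}
    (hD : ∀ n, K ≤ n → MeasurableSet[ℱ (t (n + 1))] (D n)) (m : ℕ) :
    MeasurableSet[ℱ (t (K + m))] (RR D K m) := by
  induction m with
  | zero => exact @MeasurableSet.univ _ (ℱ (t (K + 0)))
  | succ m ih =>
    have h1 := ℱ.mono (ht (by omega : K + m ≤ K + (m + 1))) _ ih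
    exact MeasurableSet.diff h1 (hD (K + m) (by omega))

lemma RR_le {t : ℕ → ℕ} (ht : Monotone t) {D : ℕ → Set Ω} {K : ℕ} (hK : 1 ≤ K)
    (hD : ∀ n, K ≤ n → MeasurableSet[ℱ (t (n + 1))] (D n))
    (hp : ∀ n, K ≤ n → ∀ C, MeasurableSet[ℱ (t n)] C → 1 / ((n : ℝ) + 1) * μ.real C ≤ μ.real (C ∩ D n)) (m : ℕ) :
    μ.real (RR D K m) ≤ (K : ℝ) / ((K : ℝ) + m) := by
  have hK0 : (1 : ℝ) ≤ K := by exact_mod_cast hK
  induction m with
  | zero =>
    have : (K : ℝ) / (K + (0 : ℕ)) = 1 := by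
      rw [Nat.cast_zero, add_zero, div_self (by linarith)]
    rw [this]
    exact measureReal_le_one
  | succ m ih =>
    have hm := RR_meas ht hD m
    have h1 := hp (K + m) (by omega) _ hm
    have h2 := measureReal_inter_add_sdiff (μ := μ) (s := RR D K m) (ℱ.le _ _ (hD (K + m) (by omega)))
    have h3 : RR D K (m + 1) = RR D K m \ D (K + m) := rfl
    rw [h3]
    have hm0 : (0 : ℝ) ≤ m := Nat.cast_nonneg m
    have h4 : μ.real (RR D K m \ D (K + m)) ≤ (1 - 1 / ((K : ℝ) + m + 1)) * μ.real (RR D K m) := by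
      push_cast at h1
      linarith
    refine h4.trans ?_
    have h5 : 0 ≤ 1 - 1 / ((K : ℝ) + m + 1) := by
      rw [sub_nonneg, div_le_one (by positivity)]
      linarith
    refine (mul_le_mul_of_nonneg_left ih h5).trans (le_of_eq ?_)
    have h6 : (K : ℝ) + m ≠ 0 := by positivity
    have h7 : (K : ℝ) + m + 1 ≠ 0 := by positivity
    push_cast
    field_simp
    ring

lemma not_mem_RR {D : ℕ → Set Ω} {K m : ℕ} {ω : Ω} (h : ω ∉ RR D K m) : ∃ n, K ≤ n ∧ ω ∈ D n := by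
  induction m with
  | zero => exact absurd (mem_univ ω) h
  | succ m ih =>
    by_cases h1 : ω ∈ RR D K m
    · refine ⟨K + m, by omega, ?_⟩
      by_contra h2
      exact h ⟨h1, h2⟩
    · exact ih h1

/-- a conditional Borel-Cantelli lemma -/
theorem bc2 {t : ℕ → ℕ} (ht : Monotone t) {D : ℕ → Set Ω} {n₀ : ℕ}
    (hD : ∀ n, n₀ ≤ n → MeasurableSet[ℱ (t (n + 1))] (D n))
    (hp : ∀ n, n₀ ≤ n → ∀ C, MeasurableSet[ℱ (t n)] C → 1 / ((n : ℝ) + 1) * μ.real C ≤ μ.real (C ∩ D n)) :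
    ∀ᵐ ω ∂μ, ∃ᶠ n in atTop, ω ∈ D n := by
  have h1 : ∀ K, ∀ᵐ ω ∂μ, 1 ≤ K → n₀ ≤ K → ∃ n, K ≤ n ∧ ω ∈ D n := by
    intro K
    by_cases hK : 1 ≤ K ∧ n₀ ≤ K
    · have h2 : μ (⋂ m, RR D K m) = 0 := by
        have h3 : ∀ m : ℕ, μ.real (⋂ m, RR D K m) ≤ (K : ℝ) / ((K : ℝ) + m) := fun m =>
          (measureReal_mono (iInter_subset _ m)).trans
            (RR_le ht hK.1 (fun n hn => hD n (hK.2.trans hn)) (fun n hn => hp n (hK.2.trans hn)) m)
        have h4 : Tendsto (fun m : ℕ => (K : ℝ) / ((K : ℝ) + m)) atTop (𝓝 0) :=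
          tendsto_const_nhds.div_atTop (tendsto_atTop_add_const_left _ _ tendsto_natCast_atTop_atTop)
        have h5 : μ.real (⋂ m, RR D K m) = 0 := le_antisymm (ge_of_tendsto' h4 h3) measureReal_nonneg
        rwa [measureReal_eq_zero_iff] at h5
      filter_upwards [measure_eq_zero_iff_ae_notMem.1 h2] with ω hω _ _
      rw [mem_iInter, not_forall] at hω
      obtain ⟨m, hm⟩ := hω
      exact not_mem_RR hm
    · exact Eventually.of_forall fun ω h2 h3 => absurd ⟨h2, h3⟩ hK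
  filter_upwards [ae_all_iff.2 h1] with ω hω
  rw [frequently_atTop]
  intro a
  obtain ⟨n, hn, hD⟩ := hω (max a (max 1 n₀)) (by omega) (by omega)
  exact ⟨n, by omega, hD⟩

lemma VF_bd {δ a b : ℝ} (hδ : δ ≤ 1) {n : ℕ} (ha : 0 < a) (h1 : a ≤ Real.log n) (h2 : Real.log n ≤ b)
    (hδ0 : 0 ≤ δ) {ω : Ω} (hω : ω ∉ VF μ ℱ A δ n) :
    (1 - δ) / b ≤ dens μ ℱ A n ω ∧ dens μ ℱ A n ω ≤ (1 + δ) / a := by
  simp only [VF, mem_ofPred_eq, not_not] at hω
  have h3 := abs_le.1 hω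
  have h4 : 0 < Real.log n := by linarith
  have h5 : 0 ≤ dens μ ℱ A n ω := by
    by_contra hcon
    push Not at hcon
    have : dens μ ℱ A n ω * Real.log n < 0 := mul_neg_of_neg_of_pos hcon h4
    linarith
  constructor
  · rw [div_le_iff₀ (by linarith)]
    nlinarith
  · rw [le_div_iff₀ ha]
    nlinarith

/-- windows `(t n, t n + j n]` with `log (t n) = c n + O(1)` and `j n ~ lam n log n` -/
structure Win (c lam : ℝ) (t j : ℕ → ℕ) : Prop where
  mono : Monotone t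
  ge : ∀ n, n ≤ t n
  lg : ∀ᶠ n : ℕ in atTop, ∀ m, t n ≤ m → m < t n + j n → c * n - 1 ≤ Real.log m ∧ Real.log m ≤ c * n + 1
  len : Tendsto (fun n : ℕ => (j n : ℝ) / (n * Real.log n)) atTop (𝓝 lam)
  sep : ∀ᶠ n in atTop, t n + j n ≤ t (n + 1)

lemma lim_u {c δ : ℝ} (hc : 0 < c) :
    Tendsto (fun n : ℕ => (n : ℝ) * ((1 + δ) / (c * n - 1))) atTop (𝓝 ((1 + δ) / c)) := by
  have h1 : Tendsto (fun n : ℕ => c - 1 / (n : ℝ)) atTop (𝓝 (c - 0)) :=
    tendsto_const_nhds.sub tendsto_one_div_atTop_nhds_zero_nat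
  rw [sub_zero] at h1
  have h2 := (tendsto_const_nhds (x := 1 + δ)).div h1 hc.ne'
  refine h2.congr' ?_
  filter_upwards [eventually_gt_atTop 0, (tendsto_natCast_atTop_atTop (R := ℝ)).eventually_gt_atTop (1 / c)] with n hn hn2
  have hn0 : (0 : ℝ) < n := by exact_mod_cast hn
  have h3 : 0 < c * n - 1 := by
    rw [div_lt_iff₀ hc] at hn2
    linarith
  have h4 : c - 1 / (n : ℝ) = (c * n - 1) / n := by field_simp
  simp only [Pi.div_apply]
  rw [h4]
  field_simp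

lemma lim_l {c δ : ℝ} (hc : 0 < c) :
    Tendsto (fun n : ℕ => (n : ℝ) * ((1 - δ) / (c * n + 1))) atTop (𝓝 ((1 - δ) / c)) := by
  have h1 : Tendsto (fun n : ℕ => c + 1 / (n : ℝ)) atTop (𝓝 (c + 0)) :=
    tendsto_const_nhds.add tendsto_one_div_atTop_nhds_zero_nat
  rw [add_zero] at h1
  have h2 := (tendsto_const_nhds (x := 1 - δ)).div h1 hc.ne'
  refine h2.congr' ?_
  filter_upwards [eventually_gt_atTop 0] with n hn
  have hn0 : (0 : ℝ) < n := by exact_mod_cast hn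
  have h4 : c + 1 / (n : ℝ) = (c * n + 1) / n := by field_simp
  simp only [Pi.div_apply]
  rw [h4]
  field_simp

/-- **the tails occur only finitely often** -/
theorem ut (hA : ∀ n, MeasurableSet[ℱ n] (A n))
    (hd : ∀ᵐ ω ∂μ, Tendsto (fun n : ℕ => dens μ ℱ A n ω * Real.log n) atTop (𝓝 1))
    {c lam : ℝ} (hc : 0 < c) (hlam : 0 < lam) {t j : ℕ → ℕ} (hw : Win c lam t j)
    {s α : ℝ} (hs : 0 < s) (hI : 1 < α * Real.log s - lam * (s - 1) / c) (S : ℕ → Set ℕ)
    (hS : ∀ n : ℕ, ∀ k ∈ S n, s ^ (α * Real.log n) ≤ s ^ k) :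
    ∀ᵐ ω ∂μ, ∀ᶠ n : ℕ in atTop, cnt A (t n) (j n) ω ∉ S n := by
  obtain ⟨δ, hδ0, hδ1, hδ⟩ : ∃ δ : ℝ, 0 < δ ∧ δ ≤ 1 ∧
      lam * (s * ((1 + δ) / c) - (1 - δ) / c) < α * Real.log s - 1 := by
    have hgap : 0 < α * Real.log s - lam * (s - 1) / c - 1 := by linarith
    refine ⟨min 1 ((α * Real.log s - lam * (s - 1) / c - 1) * c / (2 * lam * (s + 1))),
      lt_min one_pos (by positivity), min_le_left _ _, ?_⟩
    have h1 : min 1 ((α * Real.log s - lam * (s - 1) / c - 1) * c / (2 * lam * (s + 1))) ≤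
      (α * Real.log s - lam * (s - 1) / c - 1) * c / (2 * lam * (s + 1)) := min_le_right _ _
    obtain ⟨d, hd⟩ : ∃ d, d = min 1 ((α * Real.log s - lam * (s - 1) / c - 1) * c / (2 * lam * (s + 1))) := ⟨_, rfl⟩
    rw [← hd] at h1 ⊢
    have h2 : d * (lam * (s + 1) / c) ≤ (α * Real.log s - lam * (s - 1) / c - 1) / 2 := by
      refine (mul_le_mul_of_nonneg_right h1 (by positivity)).trans (le_of_eq ?_)
      field_simp
    have h3 : lam * (s * ((1 + d) / c) - (1 - d) / c) = lam * (s - 1) / c + d * (lam * (s + 1) / c) := by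
      ring
    rw [h3]
    linarith
  obtain ⟨x, hx1, hx2⟩ := exists_between hδ
  -- `β = α log s - x > 1`
  obtain ⟨β, hβ⟩ : ∃ β, β = α * Real.log s - x := ⟨_, rfl⟩
  have hβ1 : 1 < β := by linarith
  have hlim : Tendsto (fun n : ℕ => ((j n : ℝ) / (n * Real.log n)) *
      (s * ((n : ℝ) * ((1 + δ) / (c * n - 1))) - (n : ℝ) * ((1 - δ) / (c * n + 1)))) atTop
      (𝓝 (lam * (s * ((1 + δ) / c) - (1 - δ) / c))) :=
    hw.len.mul (((lim_u hc).const_mul s).sub (lim_l hc))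
  have hprob : ∀ᶠ n : ℕ in atTop, μ.real ({ω | cnt A (t n) (j n) ω ∈ S n} \ WV (VF μ ℱ A δ) (t n) (j n)) ≤
      1 / (n : ℝ) ^ β := by
    filter_upwards [hw.lg, hlim.eventually_lt_const hx1, eventually_gt_atTop 1,
      (tendsto_natCast_atTop_atTop (R := ℝ)).eventually_gt_atTop (2 / c)] with n h1 h2 h3 h4
    have hn1 : (1 : ℝ) < n := by exact_mod_cast h3
    have hn0 : (0 : ℝ) < n := by linarith
    have hL : 0 < Real.log n := Real.log_pos hn1
    rw [div_lt_iff₀ hc] at h4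
    have hcn : 1 < c * n - 1 := by linarith
    have h5 := tail (μ := μ) hA (V := VF μ ℱ A δ) (fun n => VF_meas δ n) (l := (1 - δ) / (c * n + 1))
      (u := (1 + δ) / (c * n - 1)) (by rw [div_le_one (by linarith)]; linarith)
      (div_nonneg (by linarith) (by linarith)) (t n) (j n)
      (fun m hm1 hm2 ω hω => by
        obtain ⟨g1, g2⟩ := h1 m hm1 hm2
        exact VF_bd hδ1 (by linarith) g1 g2 hδ0.le hω) hs (S n) (hS n)
    refine h5.trans ?_
    have e2 : (1 : ℝ) / (n : ℝ) ^ β = Real.exp (-(β * Real.log n)) := by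
      rw [Real.rpow_def_of_pos hn0, one_div, ← Real.exp_neg]
      congr 1
      ring
    rw [e2, ← Real.exp_add]
    apply Real.exp_le_exp.2
    have e3 : (j n : ℝ) * (s * ((1 + δ) / (c * n - 1)) - (1 - δ) / (c * n + 1)) =
        ((j n : ℝ) / (n * Real.log n)) * (s * ((n : ℝ) * ((1 + δ) / (c * n - 1))) -
          (n : ℝ) * ((1 - δ) / (c * n + 1))) * Real.log n := by
      obtain ⟨U, hU⟩ : ∃ U, U = (1 + δ) / (c * n - 1) := ⟨_, rfl⟩
      obtain ⟨W, hW⟩ : ∃ W, W = (1 - δ) / (c * n + 1) := ⟨_, rfl⟩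
      rw [← hU, ← hW]
      field_simp
    rw [e3]
    have h6 := mul_lt_mul_of_pos_right h2 hL
    rw [hβ]
    nlinarith
  have hsum : ∑' n : ℕ, μ ({ω | cnt A (t n) (j n) ω ∈ S n} \ WV (VF μ ℱ A δ) (t n) (j n)) ≠ ∞ := by
    have h1 : Summable (fun x : ℕ => 1 / (x : ℝ) ^ β) := Real.summable_one_div_nat_rpow.2 hβ1
    have h2 : Summable (fun n : ℕ => μ.real ({ω | cnt A (t n) (j n) ω ∈ S n} \ WV (VF μ ℱ A δ) (t n) (j n))) := by
      refine Summable.of_norm_bounded_eventually_nat h1 ?_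
      filter_upwards [hprob] with x hx
      rw [Real.norm_of_nonneg measureReal_nonneg]
      exact hx
    have h3 : ∑' n : ℕ, μ ({ω | cnt A (t n) (j n) ω ∈ S n} \ WV (VF μ ℱ A δ) (t n) (j n)) =
        ENNReal.ofReal (∑' n : ℕ, μ.real ({ω | cnt A (t n) (j n) ω ∈ S n} \ WV (VF μ ℱ A δ) (t n) (j n))) := by
      rw [ENNReal.ofReal_tsum_of_nonneg (fun _ => measureReal_nonneg) h2]
      congr 1
      funext i
      exact (ofReal_measureReal (measure_ne_top _ _)).symm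
    rw [h3]
    exact ENNReal.ofReal_ne_top
  filter_upwards [ae_eventually_notMem hsum, hd] with ω h1 h2
  obtain ⟨n₀, hn₀⟩ := no_VF h2 hδ0
  filter_upwards [h1, eventually_ge_atTop n₀] with n hn hnn hmem
  apply hn
  refine ⟨hmem, ?_⟩
  rintro ⟨m, hm1, _, hm3⟩
  exact hn₀ m ((hnn.trans (hw.ge n)).trans hm1) hm3

/-- **an exact count occurs infinitely often** -/
theorem lt_gen (hA : ∀ n, MeasurableSet[ℱ n] (A n))
    (hd : ∀ᵐ ω ∂μ, Tendsto (fun n : ℕ => dens μ ℱ A n ω * Real.log n) atTop (𝓝 1))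
    {c lam : ℝ} (hc : 0 < c) {t j k : ℕ → ℕ} (hw : Win c lam t j)
    {δ : ℝ} (hδ0 : 0 < δ) (hδ1 : δ < 1)
    (hlow : ∀ᶠ n : ℕ in atTop, k n ≤ j n ∧ 1 / ((n : ℝ) + 1) ≤
      ((j n).choose (k n) : ℝ) * ((1 - δ) / (c * n + 1)) ^ (k n) *
        (1 - (1 + δ) / (c * n - 1)) ^ (j n - k n)) :
    ∀ᵐ ω ∂μ, ∃ᶠ n : ℕ in atTop, cnt A (t n) (j n) ω = k n := by
  obtain ⟨n₁, hn₁⟩ := eventually_atTop.1 (hlow.and (hw.lg.and (hw.sep.and
    ((tendsto_natCast_atTop_atTop (R := ℝ)).eventually_gt_atTop (4 / c)))))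
  have main := bc2 (μ := μ) (ℱ := ℱ) hw.mono
    (D := fun n => {ω | cnt A (t n) (j n) ω = k n} ∪ WV (VF μ ℱ A δ) (t n) (j n)) (n₀ := n₁)
    (fun n hn => by
      obtain ⟨_, _, h3, _⟩ := hn₁ n hn
      exact @MeasurableSet.union _ (ℱ (t (n + 1))) _ _ (ℱ.mono h3 _ (cnt_meas hA _ _ _))
        (ℱ.mono h3 _ (WV_meas (fun n => VF_meas δ n) _ _)))
    (fun n hn C hC => by
      obtain ⟨⟨h0, h1⟩, h2, _, h4⟩ := hn₁ n hn
      rw [div_lt_iff₀ hc] at h4
      refine (mul_le_mul_of_nonneg_right h1 measureReal_nonneg).trans ?_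
      refine cnt_ge (μ := μ) hA (V := VF μ ℱ A δ) (fun n => VF_meas δ n)
        (l := (1 - δ) / (c * n + 1)) (u := (1 + δ) / (c * n - 1))
        (div_nonneg (by linarith) (by linarith)) (by rw [div_le_one (by linarith)]; linarith) ?_
        (j n) (t n) ?_ (k n) h0 C hC
      · rw [div_le_div_iff₀ (by linarith) (by linarith)]
        nlinarith
      · intro m hm1 hm2 ω hω
        obtain ⟨g1, g2⟩ := h2 m hm1 hm2
        exact VF_bd hδ1.le (by linarith) g1 g2 hδ0.le hω)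
  filter_upwards [main, hd] with ω hω h2
  obtain ⟨n₀, hn₀⟩ := no_VF h2 hδ0
  refine (hω.and_eventually (eventually_ge_atTop n₀)).mono ?_
  rintro n ⟨h3 | ⟨m, hm1, _, hm3⟩, h4⟩
  · exact h3
  · exact absurd hm3 (hn₀ m ((h4.trans (hw.ge n)).trans hm1))

/-- the exponential form of the lower bound -/
lemma exp_ge {x : ℝ} {n : ℕ} (hn : 1 < n) (h : -Real.log n ≤ x) : 1 / ((n : ℝ) + 1) ≤ Real.exp x := by
  have hn0 : (0 : ℝ) < n := by
    have : 0 < n := by omega
    exact_mod_cast this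
  have h1 : Real.exp (-Real.log n) = 1 / n := by
    rw [Real.exp_neg, Real.exp_log hn0, one_div]
  calc 1 / ((n : ℝ) + 1) ≤ 1 / n := by
        apply div_le_div_of_nonneg_left (by norm_num) hn0 (by linarith)
    _ = Real.exp (-Real.log n) := h1.symm
    _ ≤ _ := Real.exp_le_exp.2 h

lemma log_one_sub {u : ℝ} (hu1 : u < 1) : -(u / (1 - u)) ≤ Real.log (1 - u) := by
  have h4 := Real.one_sub_inv_le_log_of_pos (show 0 < 1 - u by linarith)
  have h5 : 1 - (1 - u)⁻¹ = -(u / (1 - u)) := by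
    have h1u : 1 - u ≠ 0 := by linarith
    rw [eq_neg_iff_add_eq_zero, div_eq_mul_inv]
    linear_combination (-1 : ℝ) * mul_inv_cancel₀ h1u
  rwa [h5] at h4

lemma lim_q {c lam δ : ℝ} (hc : 0 < c) {j : ℕ → ℕ}
    (hj : Tendsto (fun n : ℕ => (j n : ℝ) / (n * Real.log n)) atTop (𝓝 lam)) :
    Tendsto (fun n : ℕ => ((j n : ℝ) * ((1 + δ) / (c * n - 1) / (1 - (1 + δ) / (c * n - 1)))) / Real.log n) atTop
      (𝓝 (lam * ((1 + δ) / c))) := by
  have hu : Tendsto (fun n : ℕ => (1 + δ) / (c * n - 1)) atTop (𝓝 0) := by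
    apply tendsto_const_nhds.div_atTop
    exact tendsto_atTop_add_const_right _ _ ((tendsto_natCast_atTop_atTop (R := ℝ)).const_mul_atTop hc)
  have h1 : Tendsto (fun n : ℕ => 1 - (1 + δ) / (c * n - 1)) atTop (𝓝 (1 - 0)) := tendsto_const_nhds.sub hu
  rw [sub_zero] at h1
  have h2 := (hj.mul (lim_u (δ := δ) hc)).div h1 one_ne_zero
  rw [div_one] at h2
  refine h2.congr' ?_
  filter_upwards [eventually_gt_atTop 1] with n hn
  have hn0 : (0 : ℝ) < n := by
    have : 0 < n := by omega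
    exact_mod_cast this
  have hL : 0 < Real.log n := Real.log_pos (by exact_mod_cast hn)
  simp only [Pi.div_apply]
  obtain ⟨U, hU⟩ : ∃ U, U = (1 + δ) / (c * n - 1) := ⟨_, rfl⟩
  obtain ⟨W, hW⟩ : ∃ W, W = 1 - U := ⟨_, rfl⟩
  rw [← hU, ← hW]
  field_simp

/-- the empty windows -/
theorem void_io (hA : ∀ n, MeasurableSet[ℱ n] (A n))
    (hd : ∀ᵐ ω ∂μ, Tendsto (fun n : ℕ => dens μ ℱ A n ω * Real.log n) atTop (𝓝 1))
    {c lam : ℝ} (hc : 0 < c) (hlam : 0 < lam) (hlc : lam < c) {t j : ℕ → ℕ} (hw : Win c lam t j) :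
    ∀ᵐ ω ∂μ, ∃ᶠ n : ℕ in atTop, cnt A (t n) (j n) ω = 0 := by
  obtain ⟨δ, hδ0, hδ1, hδ⟩ : ∃ δ : ℝ, 0 < δ ∧ δ < 1 ∧ lam * ((1 + δ) / c) < 1 := by
    refine ⟨min (1 / 2) ((c - lam) / (2 * lam)), lt_min (by norm_num) (div_pos (by linarith) (by positivity)),
      lt_of_le_of_lt (min_le_left _ _) (by norm_num), ?_⟩
    have h1 : min (1 / 2) ((c - lam) / (2 * lam)) ≤ (c - lam) / (2 * lam) := min_le_right _ _
    obtain ⟨d, hd⟩ : ∃ d, d = min (1 / 2) ((c - lam) / (2 * lam)) := ⟨_, rfl⟩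
    rw [← hd] at h1 ⊢
    rw [le_div_iff₀ (by positivity)] at h1
    rw [← mul_div_assoc, div_lt_one hc]
    nlinarith
  refine lt_gen hA hd hc hw hδ0 hδ1 (k := fun _ => 0) ?_
  filter_upwards [(lim_q (δ := δ) hc hw.len).eventually_lt_const hδ, eventually_gt_atTop 1,
    (tendsto_natCast_atTop_atTop (R := ℝ)).eventually_gt_atTop (4 / c)] with n h1 h2 h4
  rw [div_lt_iff₀ hc] at h4
  refine ⟨Nat.zero_le _, ?_⟩
  have hL : 0 < Real.log n := Real.log_pos (by exact_mod_cast h2)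
  obtain ⟨u, hu⟩ : ∃ u, u = (1 + δ) / (c * n - 1) := ⟨_, rfl⟩
  rw [← hu] at h1 ⊢
  have hu1 : u < 1 := by
    rw [hu, div_lt_one (by linarith)]
    linarith
  rw [Nat.choose_zero_right, pow_zero, Nat.cast_one, one_mul, one_mul, Nat.sub_zero]
  have h5 : (1 - u) ^ (j n) = Real.exp (j n * Real.log (1 - u)) := by
    rw [← Real.log_pow, Real.exp_log (pow_pos (by linarith) _)]
  rw [h5]
  apply exp_ge h2
  rw [div_lt_one hL] at h1
  have h6 := mul_le_mul_of_nonneg_left (log_one_sub hu1) (Nat.cast_nonneg (α := ℝ) (j n))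
  linarith

/-- the windows with about `α log n` members -/
theorem cnt_win_io (hA : ∀ n, MeasurableSet[ℱ n] (A n))
    (hd : ∀ᵐ ω ∂μ, Tendsto (fun n : ℕ => dens μ ℱ A n ω * Real.log n) atTop (𝓝 1))
    {c lam α : ℝ} (hc : 0 < c) (hlam : 0 < lam) (hα : 0 < α)
    (hJ : α * Real.log (α * c / lam) - α + lam / c < 1) {t j : ℕ → ℕ} (hw : Win c lam t j)
    {k : ℕ → ℕ} (hk : Tendsto (fun n : ℕ => (k n : ℝ) / Real.log n) atTop (𝓝 α)) :
    ∀ᵐ ω ∂μ, ∃ᶠ n : ℕ in atTop, cnt A (t n) (j n) ω = k n := by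
  -- the choice of `δ`
  obtain ⟨δ, hδ0, hδ1, hδ⟩ : ∃ δ : ℝ, 0 < δ ∧ δ < 1 ∧
      -1 < α * Real.log (lam * ((1 - δ) / c) / α) + α - lam * ((1 + δ) / c) := by
    have hcont : Tendsto (fun δ : ℝ => α * Real.log (lam * ((1 - δ) / c) / α) + α - lam * ((1 + δ) / c)) (𝓝 0)
        (𝓝 (α * Real.log (lam * ((1 - 0) / c) / α) + α - lam * ((1 + 0) / c))) := by
      apply ContinuousAt.tendsto
      have hne : lam * ((1 - 0) / c) / α ≠ 0 := by
        rw [sub_zero]
        positivity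
      fun_prop (disch := first | assumption | positivity)
    have h0 : -1 < α * Real.log (lam * ((1 - 0) / c) / α) + α - lam * ((1 + 0) / c) := by
      rw [sub_zero, add_zero]
      have e1 : lam * (1 / c) / α = (α * c / lam)⁻¹ := by
        rw [inv_div]
        field_simp
      have e2 : lam * (1 / c) = lam / c := by ring
      rw [e1, Real.log_inv, e2]
      linarith
    have h1 : ∀ᶠ δ : ℝ in 𝓝[>] (0 : ℝ), -1 < α * Real.log (lam * ((1 - δ) / c) / α) + α - lam * ((1 + δ) / c) :=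
      (hcont.eventually_const_lt h0).filter_mono nhdsWithin_le_nhds
    have h2 : ∀ᶠ δ : ℝ in 𝓝[>] (0 : ℝ), δ < 1 :=
      (eventually_lt_nhds one_pos).filter_mono nhdsWithin_le_nhds
    obtain ⟨δ, h3, h4, h5⟩ := (h1.and (h2.and self_mem_nhdsWithin)).exists
    exact ⟨δ, h5, h4, h3⟩
  refine lt_gen hA hd hc hw hδ0 hδ1 ?_
  have hkt : Tendsto (fun n : ℕ => (k n : ℝ)) atTop atTop := by
    have h1 := hk.pos_mul_atTop hα tendsto_logN
    refine h1.congr' ?_
    filter_upwards [tendsto_logN.eventually_gt_atTop 0] with n hn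
    field_simp
  have hkn : Tendsto (fun n : ℕ => (k n : ℝ) / (n * Real.log n)) atTop (𝓝 0) := by
    have h1 := hk.mul tendsto_one_div_atTop_nhds_zero_nat
    rw [mul_zero] at h1
    refine h1.congr' ?_
    filter_upwards [tendsto_logN.eventually_gt_atTop 0, eventually_gt_atTop 0] with n hn hn2
    have hn0 : (0 : ℝ) < n := by exact_mod_cast hn2
    field_simp
  have hinv : Tendsto (fun n : ℕ => (1 : ℝ) / (n * Real.log n)) atTop (𝓝 0) := by
    apply tendsto_const_nhds.div_atTop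
    exact tendsto_natCast_atTop_atTop.atTop_mul_atTop₀ tendsto_logN
  have hT1 : Tendsto (fun n : ℕ => ((j n : ℝ) + 1 - k n) / k n * ((1 - δ) / (c * n + 1))) atTop
      (𝓝 (lam * ((1 - δ) / c) / α)) := by
    have h1 : Tendsto (fun n : ℕ => (j n : ℝ) / (n * Real.log n) + 1 / (n * Real.log n) - (k n : ℝ) / (n * Real.log n))
        atTop (𝓝 (lam + 0 - 0)) := (hw.len.add hinv).sub hkn
    rw [add_zero, sub_zero] at h1
    have h2 := (h1.mul (lim_l (δ := δ) hc)).div hk hα.ne'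
    refine h2.congr' ?_
    filter_upwards [tendsto_logN.eventually_gt_atTop 0, eventually_gt_atTop 0, hkt.eventually_gt_atTop 0] with n hn hn2 hn3
    have hn0 : (0 : ℝ) < n := by exact_mod_cast hn2
    simp only [Pi.div_apply]
    obtain ⟨W, hW⟩ : ∃ W, W = (1 - δ) / (c * n + 1) := ⟨_, rfl⟩
    rw [← hW]
    field_simp
  have hpos : 0 < lam * ((1 - δ) / c) / α := by
    have : 0 < 1 - δ := by linarith
    positivity
  have hE : Tendsto (fun n : ℕ => (k n : ℝ) / Real.log n *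
      Real.log (((j n : ℝ) + 1 - k n) / k n * ((1 - δ) / (c * n + 1))) + (k n : ℝ) / Real.log n - 1 / Real.log n -
      (Real.log (k n) / k n) * ((k n : ℝ) / Real.log n) -
      ((j n : ℝ) * ((1 + δ) / (c * n - 1) / (1 - (1 + δ) / (c * n - 1)))) / Real.log n) atTop
      (𝓝 (α * Real.log (lam * ((1 - δ) / c) / α) + α - 0 - 0 * α - lam * ((1 + δ) / c))) := by
    refine Tendsto.sub (Tendsto.sub (Tendsto.sub (Tendsto.add (hk.mul ?_) hk) ?_) (Tendsto.mul ?_ hk))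
      (lim_q hc hw.len)
    · exact (Real.continuousAt_log hpos.ne').tendsto.comp hT1
    · exact tendsto_const_nhds.div_atTop tendsto_logN
    · exact Real.isLittleO_log_id_atTop.tendsto_div_nhds_zero.comp hkt
  rw [zero_mul, sub_zero, sub_zero] at hE
  filter_upwards [hE.eventually_const_lt hδ, eventually_gt_atTop 1,
    (tendsto_natCast_atTop_atTop (R := ℝ)).eventually_gt_atTop (4 / c), hkt.eventually_gt_atTop 1,
    (hw.len.sub hkn).eventually_const_lt (show (0 : ℝ) < lam - 0 by linarith),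
    hT1.eventually_const_lt hpos] with n h1 h2 h4 h5 h6 h7
  rw [div_lt_iff₀ hc] at h4
  have hL : 0 < Real.log n := Real.log_pos (by exact_mod_cast h2)
  have hn0 : (0 : ℝ) < n := by
    have : 0 < n := by omega
    exact_mod_cast this
  have hkj : k n ≤ j n := by
    rw [← sub_div] at h6
    have h8 : 0 < (j n : ℝ) - k n := by
      by_contra hcon
      push Not at hcon
      have : ((j n : ℝ) - k n) / (n * Real.log n) ≤ 0 := div_nonpos_of_nonpos_of_nonneg hcon (by positivity)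
      linarith
    have h9 : (k n : ℝ) ≤ j n := by linarith
    exact_mod_cast h9
  refine ⟨hkj, ?_⟩
  have hk0 : (0 : ℝ) < k n := by linarith
  have hk1 : 1 ≤ k n := by
    have : (0 : ℝ) < k n := hk0
    exact_mod_cast this
  obtain ⟨u, hu⟩ : ∃ u, u = (1 + δ) / (c * n - 1) := ⟨_, rfl⟩
  obtain ⟨l, hl⟩ : ∃ l, l = (1 - δ) / (c * n + 1) := ⟨_, rfl⟩
  rw [← hu, ← hl] at h1 ⊢
  rw [← hl] at h7
  have hu0 : 0 < u := by rw [hu]; exact div_pos (by linarith) (by linarith)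
  have hl0 : 0 < l := by rw [hl]; exact div_pos (by linarith) (by linarith)
  have hu1 : u < 1 := by
    rw [hu, div_lt_one (by linarith)]
    linarith
  have f1 := choose_ge hk1 hkj
  have f2 : l ^ (k n) = Real.exp (k n * Real.log l) := by
    rw [← Real.log_pow, Real.exp_log (by positivity)]
  have f3 : Real.exp (-((j n : ℝ) * (u / (1 - u)))) ≤ (1 - u) ^ (j n - k n) := by
    have g1 : (1 - u) ^ (j n) ≤ (1 - u) ^ (j n - k n) :=
      pow_le_pow_of_le_one (by linarith) (by linarith) (Nat.sub_le _ _)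
    refine le_trans ?_ g1
    have g2 : (1 - u) ^ (j n) = Real.exp (j n * Real.log (1 - u)) := by
      rw [← Real.log_pow, Real.exp_log (pow_pos (by linarith) _)]
    rw [g2]
    apply Real.exp_le_exp.2
    have h6 := mul_le_mul_of_nonneg_left (log_one_sub hu1) (Nat.cast_nonneg (α := ℝ) (j n))
    linarith
  have hprod : Real.exp (k n * Real.log ((j n + 1 - k n : ℝ) / k n) + k n - 1 - Real.log (k n)) *
      Real.exp (k n * Real.log l) * Real.exp (-((j n : ℝ) * (u / (1 - u)))) ≤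
      ((j n).choose (k n) : ℝ) * l ^ (k n) * (1 - u) ^ (j n - k n) := by
    rw [f2]
    exact mul_le_mul (mul_le_mul_of_nonneg_right f1 (Real.exp_pos _).le) f3 (Real.exp_pos _).le (by positivity)
  refine le_trans ?_ hprod
  rw [← Real.exp_add, ← Real.exp_add]
  apply exp_ge h2
  have hjk : (0 : ℝ) < (j n : ℝ) + 1 - k n := by
    have : (k n : ℝ) ≤ j n := by exact_mod_cast hkj
    linarith
  have e1 : Real.log (((j n : ℝ) + 1 - k n) / k n * l) = Real.log (((j n : ℝ) + 1 - k n) / k n) + Real.log l :=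
    Real.log_mul (by positivity) hl0.ne'
  rw [e1] at h1
  have e2 : (k n : ℝ) * Real.log ((j n + 1 - k n : ℝ) / k n) + k n - 1 - Real.log (k n) + k n * Real.log l +
      -((j n : ℝ) * (u / (1 - u))) =
      ((k n : ℝ) / Real.log n * (Real.log (((j n : ℝ) + 1 - k n) / k n) + Real.log l) + (k n : ℝ) / Real.log n -
        1 / Real.log n - Real.log (k n) / k n * ((k n : ℝ) / Real.log n) -
        (j n : ℝ) * (u / (1 - u)) / Real.log n) * Real.log n := by
    obtain ⟨X, hX⟩ : ∃ X, X = Real.log ((j n + 1 - k n : ℝ) / k n) := ⟨_, rfl⟩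
    obtain ⟨Y, hY⟩ : ∃ Y, Y = Real.log l := ⟨_, rfl⟩
    obtain ⟨Z, hZ⟩ : ∃ Z, Z = u / (1 - u) := ⟨_, rfl⟩
    obtain ⟨T, hT⟩ : ∃ T, T = Real.log (k n : ℝ) := ⟨_, rfl⟩
    rw [← hX, ← hY, ← hZ, ← hT]
    field_simp
    ring
  rw [e2]
  nlinarith

end Pool.Agent.N953.P2
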