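import Mathlib
import Pool.Agent.N740.HK.Lim
import Pool.Agent.R528.RM.Final

/-!
# The number of chosen integers up to `x`, and the `n`-th chosen integer (helper953)
-/

set_option autoImplicit false
set_option linter.unusedSectionVars false

open MeasureTheory Filter Set
open scoped ENNReal Topology NNReal

namespace Pool.Agent.N953.P2

open Pool.Agent.R528.RM Pool.Agent.N740.HK

variable {Ω : Type} {m0 : MeasurableSpace Ω} {μ : Measure Ω} [IsProbabilityMeasure μ]
  {ℱ : Filtration ℕ m0} {A : ℕ → Set Ω}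

lemma g_step {ε : ℝ} (hε : 0 < ε) (hε1 : ε ≤ 1 / 4) {y H : ℝ} (hy : 1 < y) (hH0 : 0 ≤ H) (hH : H ≤ y)
    (hL : 2 ≤ ε * Real.log y) :
    (1 - ε) * (H / Real.log y) ≤ (y + H) / Real.log (y + H) - y / Real.log y ∧
      (y + H) / Real.log (y + H) - y / Real.log y ≤ H / Real.log y := by
  have hy0 : 0 < y := by linarith
  have hLy : 0 < Real.log y := Real.log_pos hy
  have h1 : Real.log y ≤ Real.log (y + H) := Real.log_le_log hy0 (by linarith)
  have h2 : Real.log (y + H) ≤ Real.log y + H / y := by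
    have e : y + H = y * (1 + H / y) := by field_simp
    have hq : 0 ≤ H / y := by positivity
    rw [e, Real.log_mul hy0.ne' (by positivity)]
    have := Real.log_le_sub_one_of_pos (show 0 < 1 + H / y by positivity)
    linarith
  obtain ⟨L, hLd⟩ : ∃ L, L = Real.log y := ⟨_, rfl⟩
  obtain ⟨M, hM⟩ : ∃ M, M = Real.log (y + H) := ⟨_, rfl⟩
  rw [← hLd] at hLy hL h1 h2 ⊢
  rw [← hM] at h1 h2 ⊢
  have hM0 : 0 < M := by linarith
  constructor
  · have h3 : (y + H) / (L + H / y) ≤ (y + H) / M :=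
      div_le_div_of_nonneg_left (by linarith) hM0 h2
    have h4 : (y + (1 - ε) * H) / L ≤ (y + H) / (L + H / y) := by
      have hq : 0 ≤ H / y := by positivity
      rw [div_le_div_iff₀ hLy (by linarith)]
      have e : (y + (1 - ε) * H) * (L + H / y) = y * L + H + (1 - ε) * H * L + (1 - ε) * H * (H / y) := by
        field_simp
        ring
      rw [e]
      have h5 : H / y ≤ 1 := by
        rw [div_le_one hy0]
        exact hH
      have h6 : (1 - ε) * H * (H / y) ≤ H * 1 := by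
        apply mul_le_mul _ h5 hq hH0
        nlinarith
      have h7 : 2 * H ≤ (ε * L) * H := mul_le_mul_of_nonneg_right hL hH0
      nlinarith
    have e : (y + (1 - ε) * H) / L = y / L + (1 - ε) * (H / L) := by
      field_simp
    rw [e] at h4
    linarith
  · have h3 : (y + H) / M ≤ (y + H) / L :=
      div_le_div_of_nonneg_left (by linarith) hLy h1
    have e : (y + H) / L = y / L + H / L := by ring
    linarith

theorem pi_bound {ω : Ω} {ε : ℝ} (hε : 0 < ε) (hε1 : ε ≤ 1 / 4)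
    (h : ∀ᶠ x : ℕ in atTop, ∀ H : ℕ, x ≤ H + 1 → H ≤ x →
      |(cnt A x H ω : ℝ) - H / Real.log x| ≤ ε * (H / Real.log x)) :
    ∃ C : ℝ, ∀ x : ℕ, (cnt A 0 x ω : ℝ) ≤ (1 + 4 * ε) * (x / Real.log x) + C ∧
      (1 - ε) * (x / Real.log x) - C ≤ cnt A 0 x ω := by
  have hL : ∀ᶠ y : ℕ in atTop, 2 / ε ≤ Real.log y := tendsto_logN.eventually_ge_atTop _
  obtain ⟨x1, hx1⟩ := eventually_atTop.1 (h.and (hL.and (eventually_ge_atTop 2)))
  refine ⟨4 * (x1 : ℝ) + 8, fun x => ?_⟩
  induction x using Nat.strong_induction_on with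
  | _ x ih =>
  rcases Nat.lt_or_ge x (2 * x1 + 4) with hx | hx
  · have c1 : (cnt A 0 x ω : ℝ) ≤ x := by exact_mod_cast cnt_le_len 0 x ω
    have hxr : (x : ℝ) ≤ 2 * x1 + 4 := by exact_mod_cast hx.le
    have hx0 : (0 : ℝ) ≤ x := Nat.cast_nonneg _
    have g0 : 0 ≤ (x : ℝ) / Real.log x := div_nonneg (Nat.cast_nonneg _) (Real.log_natCast_nonneg _)
    have g1 : (x : ℝ) / Real.log x ≤ 2 * x := by
      rcases Nat.lt_or_ge x 2 with h2 | h2
      · interval_cases x <;> simp
      · have h3 : (1 : ℝ) / 2 ≤ Real.log x := by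
          have h4 : Real.log 2 ≤ Real.log x := Real.log_le_log (by norm_num) (by exact_mod_cast h2)
          have := Real.log_two_gt_d9
          linarith
        rw [div_le_iff₀ (by linarith)]
        nlinarith
    have c0 : (0 : ℝ) ≤ cnt A 0 x ω := Nat.cast_nonneg _
    constructor
    · have : 0 ≤ (1 + 4 * ε) * ((x : ℝ) / Real.log x) := by positivity
      linarith
    · nlinarith
  · obtain ⟨y, hy⟩ : ∃ y, y = x - x / 2 := ⟨_, rfl⟩
    obtain ⟨H, hH⟩ : ∃ H, H = x / 2 := ⟨_, rfl⟩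
    have e1 : x = y + H := by omega
    have e2 : H ≤ y := by omega
    have e3 : y ≤ H + 1 := by omega
    have e4 : x1 ≤ y := by omega
    have e5 : y < x := by omega
    obtain ⟨i1, i2⟩ := ih y e5
    obtain ⟨w1, w2, w3⟩ := hx1 y e4
    have w4 := abs_le.1 (w1 H e3 e2)
    have hyr : (1 : ℝ) < y := by exact_mod_cast w3
    have hHr : (H : ℝ) ≤ y := by exact_mod_cast e2
    have hLe : 2 ≤ ε * Real.log y := by
      rw [div_le_iff₀ hε] at w2
      linarith
    obtain ⟨s1, s2⟩ := g_step hε hε1 hyr (Nat.cast_nonneg H) hHr hLe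
    have e6 : ((x : ℕ) : ℝ) = y + H := by rw [e1]; push_cast; ring
    have e7 : (cnt A 0 x ω : ℝ) = cnt A 0 y ω + cnt A y H ω := by
      rw [e1, cnt_add, zero_add]
      push_cast
      ring
    rw [e7, e6]
    obtain ⟨q, hq⟩ : ∃ q, q = (H : ℝ) / Real.log y := ⟨_, rfl⟩
    have hq0 : 0 ≤ q := by
      rw [hq]
      exact div_nonneg (Nat.cast_nonneg _) (Real.log_natCast_nonneg _)
    obtain ⟨g, hg⟩ : ∃ g, g = (y : ℝ) / Real.log y := ⟨_, rfl⟩
    obtain ⟨G, hG⟩ : ∃ G, G = ((y : ℝ) + H) / Real.log (y + H) := ⟨_, rfl⟩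
    rw [← hq] at w4 s1 s2
    rw [← hg] at i1 i2 s1 s2
    rw [← hG] at s1 s2 ⊢
    obtain ⟨w5, w6⟩ := w4
    constructor
    · have h8 : (1 + ε) * q ≤ (1 + 4 * ε) * (G - g) := by
        have h9 : (1 + ε) * q ≤ (1 + 4 * ε) * ((1 - ε) * q) := by
          have : 0 ≤ ε * (2 - 4 * ε) * q := by
            apply mul_nonneg (mul_nonneg hε.le (by linarith)) hq0
          nlinarith
        exact h9.trans (mul_le_mul_of_nonneg_left s1 (by linarith))
      nlinarith
    · have h8 : (1 - ε) * (G - g) ≤ (1 - ε) * q := mul_le_mul_of_nonneg_left s2 (by linarith)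
      nlinarith

lemma tendsto_log_div : Tendsto (fun x : ℕ => Real.log x / (x : ℝ)) atTop (𝓝 0) :=
  Real.isLittleO_log_id_atTop.tendsto_div_nhds_zero.comp tendsto_natCast_atTop_atTop

/-- the counting function is asymptotic to `x / log x` -/
theorem pi_law {ω : Ω}
    (h : ∀ m : ℕ, ∀ᶠ x : ℕ in atTop, ∀ H : ℕ, x ≤ H + 1 → H ≤ x →
      |(cnt A x H ω : ℝ) - H / Real.log x| ≤ (1 / ((m : ℝ) + 4)) * (H / Real.log x)) :
    Tendsto (fun x : ℕ => (cnt A 0 x ω : ℝ) * Real.log x / x) atTop (𝓝 1) := by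
  have key : ∀ m : ℕ, ∃ C : ℝ, ∀ᶠ x : ℕ in atTop,
      (cnt A 0 x ω : ℝ) * Real.log x / x ≤ (1 + 4 * (1 / ((m : ℝ) + 4))) + C * (Real.log x / x) ∧
      (1 - (1 / ((m : ℝ) + 4))) - C * (Real.log x / x) ≤ (cnt A 0 x ω : ℝ) * Real.log x / x := by
    intro m
    have hm : (0 : ℝ) ≤ m := Nat.cast_nonneg m
    obtain ⟨C, hC⟩ := pi_bound (A := A) (ω := ω) (ε := 1 / ((m : ℝ) + 4)) (by positivity)
      (by apply div_le_div_of_nonneg_left <;> linarith) (h m)
    refine ⟨C, ?_⟩
    filter_upwards [tendsto_logN.eventually_gt_atTop 0, eventually_gt_atTop 0] with x hL hx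
    have hx0 : (0 : ℝ) < x := by exact_mod_cast hx
    obtain ⟨c1, c2⟩ := hC x
    have hr : 0 ≤ Real.log x / (x : ℝ) := by positivity
    have e1 : (cnt A 0 x ω : ℝ) * Real.log x / x = (cnt A 0 x ω : ℝ) * (Real.log x / x) := by ring
    have e2 : ((x : ℝ) / Real.log x) * (Real.log x / x) = 1 := by field_simp
    rw [e1]
    constructor
    · refine (mul_le_mul_of_nonneg_right c1 hr).trans (le_of_eq ?_)
      rw [add_mul, mul_assoc, e2, mul_one]
    · refine le_trans (le_of_eq ?_) (mul_le_mul_of_nonneg_right c2 hr)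
      rw [sub_mul, mul_assoc, e2, mul_one]
  have hm0 : Tendsto (fun m : ℕ => 1 / ((m : ℝ) + 4)) atTop (𝓝 0) := by
    have h1 : Tendsto (fun n : ℕ => (n : ℝ) + 4) atTop atTop :=
      tendsto_atTop_add_const_right _ _ tendsto_natCast_atTop_atTop
    exact tendsto_const_nhds.div_atTop h1
  rw [tendsto_order]
  constructor
  · intro a ha
    have h1 : Tendsto (fun m : ℕ => 1 - 1 / ((m : ℝ) + 4)) atTop (𝓝 (1 - 0)) := tendsto_const_nhds.sub hm0
    rw [sub_zero] at h1
    obtain ⟨m, hm⟩ := (h1.eventually_const_lt ha).exists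
    obtain ⟨C, hC⟩ := key m
    have h2 : Tendsto (fun x : ℕ => (1 - (1 / ((m : ℝ) + 4))) - C * (Real.log x / x)) atTop
        (𝓝 ((1 - (1 / ((m : ℝ) + 4))) - C * 0)) := tendsto_const_nhds.sub (tendsto_log_div.const_mul C)
    rw [mul_zero, sub_zero] at h2
    filter_upwards [hC, h2.eventually_const_lt hm] with x h3 h4
    linarith
  · intro a ha
    have h1 : Tendsto (fun m : ℕ => 1 + 4 * (1 / ((m : ℝ) + 4))) atTop (𝓝 (1 + 4 * 0)) :=
      tendsto_const_nhds.add (hm0.const_mul 4)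
    rw [mul_zero, add_zero] at h1
    obtain ⟨m, hm⟩ := (h1.eventually_lt_const ha).exists
    obtain ⟨C, hC⟩ := key m
    have h2 : Tendsto (fun x : ℕ => (1 + 4 * (1 / ((m : ℝ) + 4))) + C * (Real.log x / x)) atTop
        (𝓝 ((1 + 4 * (1 / ((m : ℝ) + 4))) + C * 0)) := tendsto_const_nhds.add (tendsto_log_div.const_mul C)
    rw [mul_zero, add_zero] at h2
    filter_upwards [hC, h2.eventually_lt_const hm] with x h3 h4
    linarith

/-- almost surely the counting function is asymptotic to `x / log x` -/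
theorem pi_ae (hA : ∀ n, MeasurableSet[ℱ n] (A n))
    (hd : ∀ᵐ ω ∂μ, Tendsto (fun n : ℕ => dens μ ℱ A n ω * Real.log n) atTop (𝓝 1)) :
    ∀ᵐ ω ∂μ, Tendsto (fun x : ℕ => (cnt A 0 x ω : ℝ) * Real.log x / x) atTop (𝓝 1) := by
  have h1 : ∀ m : ℕ, ∀ᵐ ω ∂μ, ∀ᶠ x : ℕ in atTop, ∀ H : ℕ, x ≤ H + 1 → H ≤ x →
      |(cnt A x H ω : ℝ) - H / Real.log x| ≤ (1 / ((m : ℝ) + 4)) * (H / Real.log x) := by
    intro m
    obtain ⟨K, hK, h2⟩ := short hA hd (show (0 : ℝ) < 1 / ((m : ℝ) + 4) by positivity)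
    filter_upwards [h2] with ω hω
    have h3 : ∀ᶠ y : ℕ in atTop, K * Real.log y ^ 2 ≤ (y : ℝ) - 1 := by
      have h4 := (Real.isLittleO_pow_log_id_atTop (n := 2)).def (show (0 : ℝ) < 1 / (2 * K) by positivity)
      filter_upwards [tendsto_natCast_atTop_atTop.eventually h4, eventually_ge_atTop 2] with y hy hy2
      simp only [id] at hy
      rw [Real.norm_of_nonneg (by positivity), Real.norm_of_nonneg (Nat.cast_nonneg y), div_mul_eq_mul_div,
        one_mul, le_div_iff₀ (by positivity)] at hy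
      have : (2 : ℝ) ≤ y := by exact_mod_cast hy2
      linarith
    filter_upwards [hω, h3] with x h4 h5 H hH1 hH2
    apply h4 H _ hH2
    have : (x : ℝ) ≤ H + 1 := by exact_mod_cast hH1
    linarith
  filter_upwards [ae_all_iff.2 h1] with ω hω
  exact pi_law hω

open Classical in
lemma cnt_count (ω : Ω) (x : ℕ) :
    Nat.count (· ∈ {k | ω ∈ A k}) (x + 1) = cnt A 0 x ω + if ω ∈ A 0 then 1 else 0 := by
  induction x with
  | zero =>
    rw [Nat.count_succ, Nat.count_zero]
    simp [cnt]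
  | succ x ih =>
    rw [Nat.count_succ, ih]
    have e : cnt A 0 (x + 1) ω = cnt A 0 x ω + if ω ∈ A (x + 1) then 1 else 0 := by
      unfold cnt
      rw [Finset.sum_range_succ]
      congr 2
      rw [show 0 + 1 + x = x + 1 by ring]
    rw [e]
    simp only [mem_ofPred_eq]
    omega

/-- the `n`-th chosen integer is asymptotic to `n log n` -/
theorem pn_law {ω : Ω} (hS : {k | ω ∈ A k}.Infinite)
    (hpi : Tendsto (fun x : ℕ => (cnt A 0 x ω : ℝ) * Real.log x / x) atTop (𝓝 1)) :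
    Tendsto (fun n : ℕ => (Nat.nth (· ∈ {k | ω ∈ A k}) (n - 1) : ℝ) / (n * Real.log n)) atTop (𝓝 1) := by
  classical
  obtain ⟨P, hP⟩ : ∃ P : ℕ → ℕ, P = fun n => Nat.nth (· ∈ {k | ω ∈ A k}) (n - 1) := ⟨_, rfl⟩
  have hPt : Tendsto P atTop atTop := by
    rw [hP]
    exact (tendsto_nth hS).comp (tendsto_sub_atTop_nat 1)
  have hcnt : ∀ n : ℕ, 1 ≤ n → (n : ℝ) - 1 ≤ cnt A 0 (P n) ω ∧ (cnt A 0 (P n) ω : ℝ) ≤ n := by
    intro n hn
    have h1 := Nat.count_nth_succ_of_infinite (p := (· ∈ {k | ω ∈ A k})) hS (n - 1)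
    have h2 := cnt_count (A := A) ω (P n)
    have h3 : Nat.count (· ∈ {k | ω ∈ A k}) (P n + 1) = n := by
      rw [hP]
      have : n - 1 + 1 = n := by omega
      simpa [this] using h1
    rw [h3] at h2
    have h4 : (if ω ∈ A 0 then 1 else 0 : ℕ) ≤ 1 := by split_ifs <;> omega
    have h5 : n ≤ cnt A 0 (P n) ω + 1 := by omega
    have h6 : cnt A 0 (P n) ω ≤ n := by omega
    constructor
    · have : (n : ℝ) ≤ cnt A 0 (P n) ω + 1 := by exact_mod_cast h5
      linarith
    · exact_mod_cast h6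
  have hratio : Tendsto (fun n : ℕ => (cnt A 0 (P n) ω : ℝ) / n) atTop (𝓝 1) := by
    have h1 : Tendsto (fun n : ℕ => 1 - 1 / (n : ℝ)) atTop (𝓝 (1 - 0)) :=
      tendsto_const_nhds.sub tendsto_one_div_atTop_nhds_zero_nat
    rw [sub_zero] at h1
    refine tendsto_of_tendsto_of_tendsto_of_le_of_le' h1 tendsto_const_nhds ?_ ?_
    · filter_upwards [eventually_ge_atTop 1] with n hn
      have hn0 : (0 : ℝ) < n := by exact_mod_cast hn
      rw [le_div_iff₀ hn0]
      have := (hcnt n hn).1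
      have e : (1 - 1 / (n : ℝ)) * n = n - 1 := by field_simp
      linarith
    · filter_upwards [eventually_ge_atTop 1] with n hn
      have hn0 : (0 : ℝ) < n := by exact_mod_cast hn
      rw [div_le_one hn0]
      exact (hcnt n hn).2
  have hb : Tendsto (fun n : ℕ => (n : ℝ) * Real.log (P n) / P n) atTop (𝓝 1) := by
    have h1 := (hpi.comp hPt).div hratio one_ne_zero
    rw [div_one] at h1
    refine h1.congr' ?_
    filter_upwards [hPt.eventually_gt_atTop 0, eventually_gt_atTop 1] with n hn1 hn2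
    simp only [Function.comp_def, Pi.div_apply]
    have hn0 : (0 : ℝ) < n := by
      have : 0 < n := by omega
      exact_mod_cast this
    have hc0 : (0 : ℝ) < cnt A 0 (P n) ω := by
      have h3 := (hcnt n hn2.le).1
      have : (1 : ℝ) < n := by exact_mod_cast hn2
      linarith
    field_simp
  have hPlog : Tendsto (fun n : ℕ => Real.log (P n)) atTop atTop := tendsto_logN.comp hPt
  have hlog : Tendsto (fun n : ℕ => Real.log n / Real.log (P n)) atTop (𝓝 1) := by
    have h1 : Tendsto (fun n : ℕ => Real.log ((n : ℝ) * Real.log (P n) / P n)) atTop (𝓝 (Real.log 1)) :=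
      (Real.continuousAt_log one_ne_zero).tendsto.comp hb
    rw [Real.log_one] at h1
    have h2 : Tendsto (fun n : ℕ => Real.log ((n : ℝ) * Real.log (P n) / P n) / Real.log (P n)) atTop (𝓝 0) :=
      h1.div_atTop hPlog
    have h3 : Tendsto (fun n : ℕ => Real.log (Real.log (P n)) / Real.log (P n)) atTop (𝓝 0) :=
      Real.isLittleO_log_id_atTop.tendsto_div_nhds_zero.comp hPlog
    have h4 : Tendsto (fun n : ℕ => Real.log ((n : ℝ) * Real.log (P n) / P n) / Real.log (P n) -
        Real.log (Real.log (P n)) / Real.log (P n) + 1) atTop (𝓝 (0 - 0 + 1)) := (h2.sub h3).add_const 1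
    rw [sub_zero, zero_add] at h4
    refine h4.congr' ?_
    filter_upwards [hPt.eventually_gt_atTop 0, hPlog.eventually_gt_atTop 0, eventually_gt_atTop 0] with n hn1 hn2 hn3
    have hn0 : (0 : ℝ) < n := by exact_mod_cast hn3
    have hp0 : (0 : ℝ) < P n := by exact_mod_cast hn1
    rw [Real.log_div (by positivity) hp0.ne', Real.log_mul hn0.ne' hn2.ne']
    field_simp
    ring
  have hfin := (hlog.mul hb).inv₀ (by norm_num)
  rw [mul_one, inv_one] at hfin
  refine hfin.congr' ?_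
  filter_upwards [hPt.eventually_gt_atTop 0, hPlog.eventually_gt_atTop 0, eventually_gt_atTop 1,
    tendsto_logN.eventually_gt_atTop 0] with n hn1 hn2 hn3 hn4
  have hn0 : (0 : ℝ) < n := by
    have : 0 < n := by omega
    exact_mod_cast this
  have hp0 : (0 : ℝ) < P n := by exact_mod_cast hn1
  have e : (Nat.nth (fun x => ω ∈ A x) (n - 1)) = P n := by rw [hP]; rfl
  rw [e]
  field_simp

end Pool.Agent.N953.P2
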