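import Mathlib
import Pool.Agent.N953.P2.Cnt
import Pool.Agent.N953.P2.BC
import Pool.Agent.N740.HK.Shk

/-!
# Chosen integers just above the powers of an integer (helper953, after a plan of helper740)
-/

set_option autoImplicit false
set_option linter.unusedSectionVars false

open MeasureTheory Filter Set
open scoped ENNReal Topology NNReal

namespace Pool.Agent.N953.P2

open Pool.Agent.R528.RM Pool.Agent.N740.HK

variable {Ω : Type} {m0 : MeasurableSpace Ω} {μ : Measure Ω} [IsProbabilityMeasure μ]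
  {ℱ : Filtration ℕ m0} {A : ℕ → Set Ω}

/-! ### The windows -/

lemma tendsto_nlog : Tendsto (fun n : ℕ => (n : ℝ) * Real.log n) atTop atTop :=
  tendsto_natCast_atTop_atTop.atTop_mul_atTop₀ tendsto_logN

/-- the length of the windows -/
noncomputable def jl (lam : ℝ) (n : ℕ) : ℕ := ⌊lam * ((n : ℝ) * Real.log n)⌋₊

lemma jl_lim {lam : ℝ} (hlam : 0 < lam) :
    Tendsto (fun n : ℕ => (jl lam n : ℝ) / ((n : ℝ) * Real.log n)) atTop (𝓝 lam) :=
  (tendsto_nat_floor_mul_div_atTop hlam.le).comp tendsto_nlog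

lemma jl_le {lam : ℝ} (hlam : 0 < lam) {b : ℕ} (hb : 2 ≤ b) : ∀ᶠ n : ℕ in atTop, jl lam n ≤ b ^ n := by
  have h1 : Tendsto (fun n : ℕ => (n : ℝ) ^ 2 / (2 : ℝ) ^ n) atTop (𝓝 0) :=
    tendsto_pow_const_div_const_pow_of_one_lt 2 (by norm_num)
  filter_upwards [h1.eventually_lt_const (show 0 < 1 / lam by positivity), eventually_gt_atTop 0] with n h2 h3
  have hn0 : (0 : ℝ) < n := by exact_mod_cast h3
  have h4 : (jl lam n : ℝ) ≤ lam * ((n : ℝ) * Real.log n) :=
    Nat.floor_le (by have := Real.log_natCast_nonneg n; positivity)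
  have h5 : Real.log n ≤ n := (Real.log_le_sub_one_of_pos hn0).trans (by linarith)
  rw [div_lt_div_iff₀ (by positivity) hlam, one_mul] at h2
  have h6 : lam * ((n : ℝ) * Real.log n) ≤ lam * ((n : ℝ) * n) := by gcongr
  have h7 : (2 : ℝ) ^ n ≤ (b : ℝ) ^ n := pow_le_pow_left₀ (by norm_num) (by exact_mod_cast hb) n
  have h8 : (jl lam n : ℝ) ≤ (b : ℝ) ^ n := by nlinarith
  exact_mod_cast h8

lemma win {b : ℕ} (hb : 2 ≤ b) {lam : ℝ} (hlam : 0 < lam) :
    Win (Real.log b) lam (fun n => b ^ n - 1) (jl lam) where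
  mono := fun m n h => Nat.sub_le_sub_right (Nat.pow_le_pow_right (by omega) h) 1
  ge := fun n => by
    have : n < b ^ n := Nat.lt_pow_self (by omega)
    omega
  lg := by
    filter_upwards [jl_le hlam hb, eventually_ge_atTop 1] with n h1 h2 m hm1 hm2
    have hbn : 2 ≤ b ^ n := hb.trans (Nat.le_self_pow (by omega) b)
    have hb0 : (0 : ℝ) < b := by
      have : 0 < b := by omega
      exact_mod_cast this
    have hbr : (2 : ℝ) ≤ (b : ℝ) ^ n := by exact_mod_cast hbn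
    have e1 : Real.log ((b : ℝ) ^ n) = Real.log b * n := by rw [Real.log_pow, mul_comm]
    have hl2 := Real.log_two_lt_d9
    have hm3 : b ^ n ≤ m + 1 := by omega
    have hm4 : m ≤ 2 * b ^ n := by omega
    have hm5 : (b : ℝ) ^ n ≤ m + 1 := by exact_mod_cast hm3
    have hm6 : (m : ℝ) ≤ 2 * (b : ℝ) ^ n := by exact_mod_cast hm4
    have hm0 : (0 : ℝ) < m := by linarith
    constructor
    · have h3 : Real.log ((b : ℝ) ^ n / 2) ≤ Real.log m := Real.log_le_log (by positivity) (by linarith)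
      rw [Real.log_div (by positivity) (by norm_num), e1] at h3
      linarith
    · have h3 : Real.log m ≤ Real.log (2 * (b : ℝ) ^ n) := Real.log_le_log hm0 hm6
      rw [Real.log_mul (by norm_num) (by positivity), e1] at h3
      linarith
  len := jl_lim hlam
  sep := by
    filter_upwards [jl_le hlam hb] with n h1
    have h2 : 2 * b ^ n ≤ b ^ (n + 1) := by
      rw [pow_succ, mul_comm]
      exact Nat.mul_le_mul_left _ hb
    have h3 : 0 < b ^ n := by positivity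
    omega

lemma logb_pos {b : ℕ} (hb : 2 ≤ b) : 0 < Real.log b := Real.log_pos (by exact_mod_cast (by omega : 1 < b))

/-! ### The rate function -/

/-- the exponent -/
noncomputable def Jf (c lam α : ℝ) : ℝ := α * Real.log (α * c / lam) - α + lam / c

lemma Jf_one {c α : ℝ} (hc : 0 < c) : Jf c 1 α = II (α * c) / c := by
  unfold Jf II
  rw [div_one]
  field_simp

lemma Jf_cont {c α : ℝ} (hc : 0 < c) (hα : 0 < α) : ContinuousAt (fun lam : ℝ => Jf c lam α) 1 := by
  unfold Jf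
  have h1 : α * c / 1 ≠ 0 := by positivity
  have h2 : (1 : ℝ) ≠ 0 := one_ne_zero
  fun_prop (disch := assumption)

lemma ex_gt {P : ℝ → Prop} (h : ∀ᶠ lam in 𝓝 (1 : ℝ), P lam) : ∃ lam, 1 < lam ∧ lam < 2 ∧ P lam := by
  have h1 : ∀ᶠ lam : ℝ in 𝓝[>] (1 : ℝ), P lam := h.filter_mono nhdsWithin_le_nhds
  have h2 : ∀ᶠ lam : ℝ in 𝓝[>] (1 : ℝ), lam < 2 :=
    (eventually_lt_nhds (by norm_num)).filter_mono nhdsWithin_le_nhds
  obtain ⟨lam, h3, h4, h5⟩ := (h1.and (h2.and self_mem_nhdsWithin)).exists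
  exact ⟨lam, h5, h4, h3⟩

lemma ex_lt {P : ℝ → Prop} (h : ∀ᶠ lam in 𝓝 (1 : ℝ), P lam) : ∃ lam, 0 < lam ∧ lam < 1 ∧ P lam := by
  have h1 : ∀ᶠ lam : ℝ in 𝓝[<] (1 : ℝ), P lam := h.filter_mono nhdsWithin_le_nhds
  have h2 : ∀ᶠ lam : ℝ in 𝓝[<] (1 : ℝ), 0 < lam :=
    (eventually_gt_nhds (by norm_num)).filter_mono nhdsWithin_le_nhds
  obtain ⟨lam, h3, h4, h5⟩ := (h1.and (h2.and self_mem_nhdsWithin)).exists
  exact ⟨lam, h4, h5, h3⟩

/-! ### The counts -/

section probability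

variable (hA : ∀ n, MeasurableSet[ℱ n] (A n))
  (hd : ∀ᵐ ω ∂μ, Tendsto (fun n : ℕ => dens μ ℱ A n ω * Real.log n) atTop (𝓝 1))

include hA hd

theorem nonvoid {b : ℕ} (hb : 2 ≤ b) {lam : ℝ} (hlam : Real.log b < lam) :
    ∀ᵐ ω ∂μ, ∀ᶠ n : ℕ in atTop, cnt A (b ^ n - 1) (jl lam n) ω ≠ 0 := by
  have hc := logb_pos hb
  have hlam0 : 0 < lam := by linarith
  obtain ⟨c, hcd⟩ : ∃ c, c = Real.log b := ⟨_, rfl⟩
  rw [← hcd] at hc hlam
  obtain ⟨s, hs0, hs1⟩ : ∃ s : ℝ, 0 < s ∧ s < 1 - c / lam := exists_between (by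
    rw [sub_pos, div_lt_one hlam0]
    exact hlam)
  have h1 := ut (μ := μ) (ℱ := ℱ) hA hd hc hlam0 (by rw [hcd]; exact win hb hlam0) (s := s) (α := 0) hs0
    (by
      have h2 : lam * s < lam - c := by
        have := mul_lt_mul_of_pos_left hs1 hlam0
        have e : lam * (1 - c / lam) = lam - c := by field_simp
        rw [e] at this
        exact this
      have h3 : (0 : ℝ) * Real.log s - lam * (s - 1) / c = (lam - lam * s) / c := by ring
      rw [h3, lt_div_iff₀ hc]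
      linarith) (fun _ => {0}) (by
      intro n k hk
      rw [Set.mem_singleton_iff] at hk
      rw [hk]
      simp)
  filter_upwards [h1] with ω hω
  filter_upwards [hω] with n hn h
  exact hn h

theorem void {b : ℕ} (hb : 2 ≤ b) {lam : ℝ} (h0 : 0 < lam) (hlam : lam < Real.log b) :
    ∀ᵐ ω ∂μ, ∃ᶠ n : ℕ in atTop, cnt A (b ^ n - 1) (jl lam n) ω = 0 :=
  void_io hA hd (logb_pos hb) h0 hlam (win hb h0)

theorem tail_up {b : ℕ} (hb : 2 ≤ b) {lam α : ℝ} (h0 : 0 < lam) (hα : lam < α * Real.log b)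
    (hJ : 1 < Jf (Real.log b) lam α) :
    ∀ᵐ ω ∂μ, ∀ᶠ n : ℕ in atTop, (cnt A (b ^ n - 1) (jl lam n) ω : ℝ) < α * Real.log n := by
  have hc := logb_pos hb
  obtain ⟨c, hcd⟩ : ∃ c, c = Real.log b := ⟨_, rfl⟩
  rw [← hcd] at hc hα hJ
  have hs : 1 < α * c / lam := by rwa [one_lt_div h0]
  have h1 := ut (μ := μ) (ℱ := ℱ) hA hd hc h0 (by rw [hcd]; exact win hb h0) (s := α * c / lam) (α := α)
    (by linarith) (by
      refine lt_of_lt_of_eq hJ ?_
      unfold Jf
      have e : lam * (α * c / lam - 1) / c = α - lam / c := by field_simp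
      rw [e]
      ring) (fun n => {k : ℕ | α * Real.log n ≤ k}) (by
      intro n k hk
      rw [← Real.rpow_natCast]
      exact Real.rpow_le_rpow_of_exponent_le hs.le hk)
  filter_upwards [h1] with ω hω
  filter_upwards [hω] with n hn
  exact not_le.1 hn

theorem tail_dn {b : ℕ} (hb : 2 ≤ b) {lam α : ℝ} (h0 : 0 < lam) (hα0 : 0 < α) (hα : α * Real.log b < lam)
    (hJ : 1 < Jf (Real.log b) lam α) :
    ∀ᵐ ω ∂μ, ∀ᶠ n : ℕ in atTop, α * Real.log n < (cnt A (b ^ n - 1) (jl lam n) ω : ℝ) := by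
  have hc := logb_pos hb
  obtain ⟨c, hcd⟩ : ∃ c, c = Real.log b := ⟨_, rfl⟩
  rw [← hcd] at hc hα hJ
  have hs : α * c / lam < 1 := by rwa [div_lt_one h0]
  have h1 := ut (μ := μ) (ℱ := ℱ) hA hd hc h0 (by rw [hcd]; exact win hb h0) (s := α * c / lam) (α := α)
    (by positivity) (by
      refine lt_of_lt_of_eq hJ ?_
      unfold Jf
      have e : lam * (α * c / lam - 1) / c = α - lam / c := by field_simp
      rw [e]
      ring) (fun n => {k : ℕ | (k : ℝ) ≤ α * Real.log n}) (by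
      intro n k hk
      rw [← Real.rpow_natCast]
      exact Real.rpow_le_rpow_of_exponent_ge (by positivity) hs.le hk)
  filter_upwards [h1] with ω hω
  filter_upwards [hω] with n hn
  exact not_le.1 hn

theorem exact_io {b : ℕ} (hb : 2 ≤ b) {lam α : ℝ} (h0 : 0 < lam) (hα0 : 0 < α)
    (hJ : Jf (Real.log b) lam α < 1) :
    ∀ᵐ ω ∂μ, ∃ᶠ n : ℕ in atTop, cnt A (b ^ n - 1) (jl lam n) ω = ⌊α * Real.log n⌋₊ :=
  cnt_win_io hA hd (logb_pos hb) h0 hα0 hJ (win hb h0) (k := fun n => ⌊α * Real.log n⌋₊)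
    ((tendsto_nat_floor_mul_div_atTop hα0.le).comp tendsto_logN)

end probability

/-! ### The sequence of the chosen integers -/

/-- the number of chosen integers in `[b ^ n, b ^ n + P n]` -/
noncomputable def aa (A : ℕ → Set Ω) (P : ℕ → ℕ) (b : ℕ) (ω : Ω) (n : ℕ) : ℕ := cnt A (b ^ n - 1) (P n + 1) ω

lemma P_le {P : ℕ → ℕ} (hP : Tendsto (fun n : ℕ => (P n : ℝ) / (n * Real.log n)) atTop (𝓝 1)) {lam : ℝ}
    (h : 1 < lam) : ∀ᶠ n : ℕ in atTop, P n + 1 ≤ jl lam n := by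
  obtain ⟨x, hx1, hx2⟩ := exists_between h
  have h3 : Tendsto (fun n : ℕ => (lam - x) * ((n : ℝ) * Real.log n)) atTop atTop :=
    tendsto_nlog.const_mul_atTop (by linarith)
  filter_upwards [hP.eventually_lt_const hx1, h3.eventually_gt_atTop 2,
    tendsto_nlog.eventually_gt_atTop 0] with n h1 h4 h5
  rw [div_lt_iff₀ h5] at h1
  have h6 := Nat.lt_floor_add_one (lam * ((n : ℝ) * Real.log n))
  have h7 : (P n : ℝ) + 1 < (jl lam n : ℝ) + 1 := by
    unfold jl
    linarith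
  have h8 : P n + 1 < jl lam n + 1 := by exact_mod_cast h7
  omega

lemma le_P {P : ℕ → ℕ} (hP : Tendsto (fun n : ℕ => (P n : ℝ) / (n * Real.log n)) atTop (𝓝 1)) {lam : ℝ}
    (h0 : 0 < lam) (h : lam < 1) : ∀ᶠ n : ℕ in atTop, jl lam n ≤ P n + 1 := by
  filter_upwards [hP.eventually_const_lt h, tendsto_nlog.eventually_gt_atTop 0] with n h1 h5
  rw [lt_div_iff₀ h5] at h1
  have h6 : (jl lam n : ℝ) ≤ lam * ((n : ℝ) * Real.log n) := Nat.floor_le (by positivity)
  have h8 : (jl lam n : ℝ) ≤ (P n : ℝ) + 1 := by linarith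
  exact_mod_cast h8

section laws

variable (hA : ∀ n, MeasurableSet[ℱ n] (A n))
  (hd : ∀ᵐ ω ∂μ, Tendsto (fun n : ℕ => dens μ ℱ A n ω * Real.log n) atTop (𝓝 1))

include hA hd

/-- the upper limit -/
theorem limsup_aa {b : ℕ} (hb : 2 ≤ b) {s : ℝ} (hs : 1 < s) (hI : II s = Real.log b) :
    ∀ᵐ ω ∂μ, ∀ P : ℕ → ℕ, Tendsto (fun n : ℕ => (P n : ℝ) / (n * Real.log n)) atTop (𝓝 1) →
      limsup (fun n : ℕ => (aa A P b ω n : ℝ) / Real.log n) atTop = s / Real.log b := by
  have hc := logb_pos hb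
  obtain ⟨c, hcd⟩ : ∃ c, c = Real.log b := ⟨_, rfl⟩
  have hcc : 0 < c := by rw [hcd]; exact hc
  have hI' : II s = c := by rw [hcd]; exact hI
  have hlogs := Real.log_pos hs
  -- above
  have a1 : ∀ m : ℕ, ∃ lam : ℝ, 1 < lam ∧ ∀ᵐ ω ∂μ, ∀ᶠ n : ℕ in atTop,
      (cnt A (b ^ n - 1) (jl lam n) ω : ℝ) < (s + 1 / ((m : ℝ) + 1)) / c * Real.log n := by
    intro m
    obtain ⟨x, hx⟩ : ∃ x, x = s + 1 / ((m : ℝ) + 1) := ⟨_, rfl⟩
    have hxs : s < x := by
      rw [hx]
      have : (0 : ℝ) < 1 / ((m : ℝ) + 1) := by positivity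
      linarith
    rw [← hx]
    have hα : 0 < x / c := div_pos (by linarith) hcc
    have h1 : 1 < Jf c 1 (x / c) := by
      rw [Jf_one hcc, div_mul_cancel₀ _ hcc.ne', one_lt_div hcc]
      have h1 := II_lt (by linarith : 0 < s) (by linarith : 0 < x) hxs.ne'
      have h2 : 0 < (x - s) * Real.log s := mul_pos (by linarith) hlogs
      linarith
    obtain ⟨lam, l1, _, l3, l4⟩ := ex_gt (((Jf_cont hcc hα).eventually_const_lt h1).and
      (eventually_lt_nhds (by linarith : (1 : ℝ) < x)))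
    refine ⟨lam, l1, tail_up hA hd hb (by linarith) ?_ (by rw [← hcd]; exact l3)⟩
    rw [← hcd, div_mul_cancel₀ _ hcc.ne']
    exact l4
  -- below
  have a2 : ∀ m : ℕ, ∃ lam : ℝ, 0 < lam ∧ lam < 1 ∧ ∀ᵐ ω ∂μ, ∃ᶠ n : ℕ in atTop,
      cnt A (b ^ n - 1) (jl lam n) ω = ⌊(s - (s - 1) / ((m : ℝ) + 2)) / c * Real.log n⌋₊ := by
    intro m
    obtain ⟨x, hx⟩ : ∃ x, x = s - (s - 1) / ((m : ℝ) + 2) := ⟨_, rfl⟩
    have hxs : x < s := by
      rw [hx]
      have : (0 : ℝ) < (s - 1) / ((m : ℝ) + 2) := div_pos (by linarith) (by positivity)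
      linarith
    have hx1 : 1 < x := by
      rw [hx]
      have : (s - 1) / ((m : ℝ) + 2) < s - 1 := by
        rw [div_lt_iff₀ (by positivity)]
        have : (0 : ℝ) ≤ m := Nat.cast_nonneg m
        nlinarith
      linarith
    rw [← hx]
    have hα : 0 < x / c := div_pos (by linarith) hcc
    have h1 : Jf c 1 (x / c) < 1 := by
      rw [Jf_one hcc, div_mul_cancel₀ _ hcc.ne', div_lt_one hcc]
      have h1 := II_lt (by linarith : 0 < x) (by linarith : 0 < s) hxs.ne'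
      have h2 : 0 < (s - x) * Real.log x := mul_pos (by linarith) (Real.log_pos hx1)
      linarith
    obtain ⟨lam, l1, l2, l3⟩ := ex_lt ((Jf_cont hcc hα).eventually_lt_const h1)
    exact ⟨lam, l1, l2, exact_io hA hd hb l1 hα (by rw [← hcd]; exact l3)⟩
  choose lu lu1 a1 using a1
  choose ld ld0 ld1 a2 using a2
  filter_upwards [ae_all_iff.2 a1, ae_all_iff.2 a2] with ω h1 h2 P hP
  rw [← hcd]
  have hlogp := tendsto_logN.eventually_gt_atTop 0
  apply limsup_of
  · intro s' hs'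
    have hT : Tendsto (fun m : ℕ => (s + 1 / ((m : ℝ) + 1)) / c) atTop (𝓝 (s / c)) := by
      have h3 := ((tendsto_one_div_add_atTop_nhds_zero_nat (𝕜 := ℝ)).const_add s).div_const c
      rwa [add_zero] at h3
    obtain ⟨m, hm⟩ := (hT.eventually_lt_const hs').exists
    filter_upwards [h1 m, P_le hP (lu1 m), hlogp] with n h3 h4 h5
    rw [div_lt_iff₀ h5]
    have h6 : (aa A P b ω n : ℝ) ≤ cnt A (b ^ n - 1) (jl (lu m) n) ω := by
      exact_mod_cast cnt_mono _ h4 ω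
    have h7 := mul_lt_mul_of_pos_right hm h5
    linarith
  · intro s' hs'
    have hT : Tendsto (fun m : ℕ => (s - (s - 1) / ((m : ℝ) + 2)) / c) atTop (𝓝 (s / c)) := by
      have h1 : Tendsto (fun n : ℕ => (n : ℝ) + 2) atTop atTop :=
        tendsto_atTop_add_const_right _ _ tendsto_natCast_atTop_atTop
      have h2 : Tendsto (fun n : ℕ => (s - 1) / ((n : ℝ) + 2)) atTop (𝓝 0) := tendsto_const_nhds.div_atTop h1
      have h3 := (h2.const_sub s).div_const c
      rwa [sub_zero] at h3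
    obtain ⟨m, hm⟩ := (hT.eventually_const_lt hs').exists
    obtain ⟨y, hy⟩ : ∃ y, y = (s - (s - 1) / ((m : ℝ) + 2)) / c := ⟨_, rfl⟩
    have h2m := h2 m
    rw [← hy] at hm h2m
    have h8 : ∀ᶠ n : ℕ in atTop, 1 < (y - s') * Real.log n :=
      (tendsto_logN.const_mul_atTop (by linarith : 0 < y - s')).eventually_gt_atTop 1
    refine (h2m.and_eventually ((le_P hP (ld0 m) (ld1 m)).and (hlogp.and h8))).mono ?_
    rintro n ⟨h3, h4, h5, h9⟩
    rw [lt_div_iff₀ h5]
    have h6 : (cnt A (b ^ n - 1) (jl (ld m) n) ω : ℝ) ≤ aa A P b ω n := by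
      exact_mod_cast cnt_mono _ h4 ω
    rw [h3] at h6
    have h7 := Nat.lt_floor_add_one (y * Real.log n)
    linarith

/-- the lower limit -/
theorem liminf_aa {b : ℕ} (hb : 2 ≤ b) {s : ℝ} (hs0 : 0 < s) (hs : s < 1) (hI : II s = Real.log b) :
    ∀ᵐ ω ∂μ, ∀ P : ℕ → ℕ, Tendsto (fun n : ℕ => (P n : ℝ) / (n * Real.log n)) atTop (𝓝 1) →
      liminf (fun n : ℕ => (aa A P b ω n : ℝ) / Real.log n) atTop = s / Real.log b := by
  have hc := logb_pos hb
  obtain ⟨c, hcd⟩ : ∃ c, c = Real.log b := ⟨_, rfl⟩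
  have hcc : 0 < c := by rw [hcd]; exact hc
  have hI' : II s = c := by rw [hcd]; exact hI
  have hlogs := Real.log_neg hs0 hs
  have a1 : ∀ m : ℕ, ∃ lam : ℝ, 0 < lam ∧ lam < 1 ∧ ∀ᵐ ω ∂μ, ∀ᶠ n : ℕ in atTop,
      (s - s / ((m : ℝ) + 2)) / c * Real.log n < (cnt A (b ^ n - 1) (jl lam n) ω : ℝ) := by
    intro m
    obtain ⟨x, hx⟩ : ∃ x, x = s - s / ((m : ℝ) + 2) := ⟨_, rfl⟩
    have hxs : x < s := by
      rw [hx]
      have : (0 : ℝ) < s / ((m : ℝ) + 2) := by positivity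
      linarith
    have hx0 : 0 < x := by
      rw [hx]
      have : s / ((m : ℝ) + 2) < s := by
        rw [div_lt_iff₀ (by positivity)]
        have : (0 : ℝ) ≤ m := Nat.cast_nonneg m
        nlinarith
      linarith
    rw [← hx]
    have hα : 0 < x / c := div_pos hx0 hcc
    have h1 : 1 < Jf c 1 (x / c) := by
      rw [Jf_one hcc, div_mul_cancel₀ _ hcc.ne', one_lt_div hcc]
      have h1 := II_lt hs0 hx0 hxs.ne
      have h2 : 0 < (x - s) * Real.log s := mul_pos_of_neg_of_neg (by linarith) hlogs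
      linarith
    obtain ⟨lam, l1, l2, l3, l4⟩ := ex_lt (((Jf_cont hcc hα).eventually_const_lt h1).and
      (eventually_gt_nhds (by linarith : x < (1 : ℝ))))
    refine ⟨lam, l1, l2, tail_dn hA hd hb l1 hα ?_ (by rw [← hcd]; exact l3)⟩
    rw [← hcd, div_mul_cancel₀ _ hcc.ne']
    exact l4
  have a2 : ∀ m : ℕ, ∃ lam : ℝ, 1 < lam ∧ ∀ᵐ ω ∂μ, ∃ᶠ n : ℕ in atTop,
      cnt A (b ^ n - 1) (jl lam n) ω = ⌊(s + (1 - s) / ((m : ℝ) + 2)) / c * Real.log n⌋₊ := by
    intro m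
    obtain ⟨x, hx⟩ : ∃ x, x = s + (1 - s) / ((m : ℝ) + 2) := ⟨_, rfl⟩
    have hxs : s < x := by
      rw [hx]
      have : (0 : ℝ) < (1 - s) / ((m : ℝ) + 2) := div_pos (by linarith) (by positivity)
      linarith
    have hx1 : x < 1 := by
      rw [hx]
      have : (1 - s) / ((m : ℝ) + 2) < 1 - s := by
        rw [div_lt_iff₀ (by positivity)]
        have : (0 : ℝ) ≤ m := Nat.cast_nonneg m
        nlinarith
      linarith
    rw [← hx]
    have hα : 0 < x / c := div_pos (by linarith) hcc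
    have h1 : Jf c 1 (x / c) < 1 := by
      rw [Jf_one hcc, div_mul_cancel₀ _ hcc.ne', div_lt_one hcc]
      have h1 := II_lt (by linarith : 0 < x) hs0 hxs.ne
      have h2 : 0 < (s - x) * Real.log x := mul_pos_of_neg_of_neg (by linarith) (Real.log_neg (by linarith) hx1)
      linarith
    obtain ⟨lam, l1, _, l3⟩ := ex_gt ((Jf_cont hcc hα).eventually_lt_const h1)
    exact ⟨lam, l1, exact_io hA hd hb (by linarith) hα (by rw [← hcd]; exact l3)⟩
  choose ld ld0 ld1 a1 using a1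
  choose lu lu1 a2 using a2
  filter_upwards [ae_all_iff.2 a1, ae_all_iff.2 a2] with ω h1 h2 P hP
  rw [← hcd]
  have hlogp := tendsto_logN.eventually_gt_atTop 0
  have hT0 : Tendsto (fun n : ℕ => (n : ℝ) + 2) atTop atTop :=
    tendsto_atTop_add_const_right _ _ tendsto_natCast_atTop_atTop
  apply liminf_of
  · intro s' hs'
    have hT : Tendsto (fun m : ℕ => (s - s / ((m : ℝ) + 2)) / c) atTop (𝓝 (s / c)) := by
      have h2 : Tendsto (fun n : ℕ => s / ((n : ℝ) + 2)) atTop (𝓝 0) := tendsto_const_nhds.div_atTop hT0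
      have h3 := (h2.const_sub s).div_const c
      rwa [sub_zero] at h3
    obtain ⟨m, hm⟩ := (hT.eventually_const_lt hs').exists
    filter_upwards [h1 m, le_P hP (ld0 m) (ld1 m), hlogp] with n h3 h4 h5
    rw [lt_div_iff₀ h5]
    have h6 : (cnt A (b ^ n - 1) (jl (ld m) n) ω : ℝ) ≤ aa A P b ω n := by
      exact_mod_cast cnt_mono _ h4 ω
    have h7 := mul_lt_mul_of_pos_right hm h5
    linarith
  · intro s' hs'
    have hT : Tendsto (fun m : ℕ => (s + (1 - s) / ((m : ℝ) + 2)) / c) atTop (𝓝 (s / c)) := by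
      have h2 : Tendsto (fun n : ℕ => (1 - s) / ((n : ℝ) + 2)) atTop (𝓝 0) := tendsto_const_nhds.div_atTop hT0
      have h3 := (h2.const_add s).div_const c
      rwa [add_zero] at h3
    obtain ⟨m, hm⟩ := (hT.eventually_lt_const hs').exists
    obtain ⟨y, hy⟩ : ∃ y, y = (s + (1 - s) / ((m : ℝ) + 2)) / c := ⟨_, rfl⟩
    have h2m := h2 m
    have hy0 : 0 < y := by
      rw [hy]
      have : 0 < (1 - s) / ((m : ℝ) + 2) := div_pos (by linarith) (by positivity)
      positivity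
    rw [← hy] at hm h2m
    refine (h2m.and_eventually ((P_le hP (lu1 m)).and hlogp)).mono ?_
    rintro n ⟨h3, h4, h5⟩
    rw [div_lt_iff₀ h5]
    have h6 : (aa A P b ω n : ℝ) ≤ cnt A (b ^ n - 1) (jl (lu m) n) ω := by
      exact_mod_cast cnt_mono _ h4 ω
    rw [h3] at h6
    have h7 : ((⌊y * Real.log n⌋₊ : ℕ) : ℝ) ≤ y * Real.log n := Nat.floor_le (by positivity)
    have h8 := mul_lt_mul_of_pos_right hm h5
    linarith

/-- there is a chosen integer in `[2 ^ n, 2 ^ n + P n]` -/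
theorem two_pos : ∀ᵐ ω ∂μ, ∀ P : ℕ → ℕ, Tendsto (fun n : ℕ => (P n : ℝ) / (n * Real.log n)) atTop (𝓝 1) →
    ∀ᶠ n : ℕ in atTop, 1 ≤ aa A P 2 ω n := by
  have hl : Real.log ((2 : ℕ) : ℝ) < 3 / 4 := by
    have := Real.log_two_lt_d9
    push_cast
    linarith
  filter_upwards [nonvoid hA hd (b := 2) le_rfl hl] with ω hω P hP
  filter_upwards [hω, le_P hP (show (0 : ℝ) < 3 / 4 by norm_num) (by norm_num)] with n h1 h2
  have h3 : cnt A (2 ^ n - 1) (jl (3 / 4) n) ω ≤ aa A P 2 ω n := cnt_mono _ h2 ω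
  omega

/-- empty intervals for the larger bases -/
theorem three_void : ∀ᵐ ω ∂μ, ∀ P : ℕ → ℕ, Tendsto (fun n : ℕ => (P n : ℝ) / (n * Real.log n)) atTop (𝓝 1) →
    ∀ b : ℕ, 3 ≤ b → ∃ᶠ n : ℕ in atTop, aa A P b ω n = 0 := by
  have h0 : ∀ b : ℕ, ∀ᵐ ω ∂μ, 3 ≤ b → ∃ᶠ n : ℕ in atTop, cnt A (b ^ n - 1) (jl (109 / 100) n) ω = 0 := by
    intro b
    by_cases hb : 3 ≤ b
    · have hl : (109 / 100 : ℝ) < Real.log b := by
        have h1 : Real.log 3 ≤ Real.log b := Real.log_le_log (by norm_num) (by exact_mod_cast hb)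
        have := Real.log_three_gt_d9
        linarith
      filter_upwards [void hA hd (b := b) (by omega) (by norm_num) hl] with ω hω _
      exact hω
    · exact Eventually.of_forall fun ω h => absurd h hb
  filter_upwards [ae_all_iff.2 h0] with ω hω P hP b hb
  refine ((hω b hb).and_eventually (P_le hP (show (1 : ℝ) < 109 / 100 by norm_num))).mono ?_
  rintro n ⟨h1, h2⟩
  have h3 : aa A P b ω n ≤ cnt A (b ^ n - 1) (jl (109 / 100) n) ω := cnt_mono _ h2 ω
  omega

omit hA hd in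
lemma cnt_zero_iff (t j : ℕ) (ω : Ω) : cnt A t j ω = 0 ↔ ∀ r < j, ω ∉ A (t + 1 + r) := by
  classical
  unfold cnt
  rw [Finset.sum_eq_zero_iff]
  constructor
  · intro h r hr hω
    have := h r (Finset.mem_range.2 hr)
    rw [if_pos hω] at this
    exact one_ne_zero this
  · intro h r hr
    rw [if_neg (h r (Finset.mem_range.1 hr))]

/-- the least chosen integer above `b ^ n` -/
theorem next_law : ∀ᵐ ω ∂μ, {k | ω ∈ A k}.Infinite → ∀ b : ℕ, 2 ≤ b →
    limsup (fun n : ℕ => (((sInf {k | ω ∈ A k ∧ b ^ n ≤ k} : ℕ) : ℝ) - (b : ℝ) ^ n) / (n * Real.log n)) atTop =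
      Real.log b := by
  have a1 : ∀ b m : ℕ, ∀ᵐ ω ∂μ, 2 ≤ b → ∀ᶠ n : ℕ in atTop,
      cnt A (b ^ n - 1) (jl (Real.log b + 1 / ((m : ℝ) + 1)) n) ω ≠ 0 := by
    intro b m
    by_cases hb : 2 ≤ b
    · have : (0 : ℝ) < 1 / ((m : ℝ) + 1) := by positivity
      filter_upwards [nonvoid hA hd hb (by linarith : Real.log b < Real.log b + 1 / ((m : ℝ) + 1))] with ω hω _
      exact hω
    · exact Eventually.of_forall fun ω h => absurd h hb
  have a2 : ∀ b m : ℕ, ∀ᵐ ω ∂μ, 2 ≤ b → ∃ᶠ n : ℕ in atTop,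
      cnt A (b ^ n - 1) (jl (Real.log b - Real.log b / ((m : ℝ) + 2)) n) ω = 0 := by
    intro b m
    by_cases hb : 2 ≤ b
    · have hc := logb_pos hb
      have h1 : 0 < Real.log b / ((m : ℝ) + 2) := by positivity
      have h2 : Real.log b / ((m : ℝ) + 2) < Real.log b := by
        rw [div_lt_iff₀ (by positivity)]
        have : (0 : ℝ) ≤ m := Nat.cast_nonneg m
        nlinarith
      filter_upwards [void hA hd hb (by linarith : 0 < Real.log b - Real.log b / ((m : ℝ) + 2)) (by linarith)] with ω hω _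
      exact hω
    · exact Eventually.of_forall fun ω h => absurd h hb
  filter_upwards [ae_all_iff.2 fun b => ae_all_iff.2 (a1 b), ae_all_iff.2 fun b => ae_all_iff.2 (a2 b)]
    with ω h1 h2 hS b hb
  have hc := logb_pos hb
  have hbn : ∀ n, 0 < b ^ n := fun n => by positivity
  apply limsup_of
  · intro s' hs'
    have hT : Tendsto (fun m : ℕ => Real.log b + 1 / ((m : ℝ) + 1)) atTop (𝓝 (Real.log b)) := by
      have h3 := (tendsto_one_div_add_atTop_nhds_zero_nat (𝕜 := ℝ)).const_add (Real.log b)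
      rwa [add_zero] at h3
    obtain ⟨m, hm⟩ := (hT.eventually_lt_const hs').exists
    filter_upwards [h1 b m hb, tendsto_nlog.eventually_gt_atTop 0] with n h3 h4
    rw [Ne, cnt_zero_iff] at h3
    push Not at h3
    obtain ⟨r, hr, hω⟩ := h3
    have e : b ^ n - 1 + 1 + r = b ^ n + r := by have := hbn n; omega
    rw [e] at hω
    have h5 : sInf {k | ω ∈ A k ∧ b ^ n ≤ k} ≤ b ^ n + r := Nat.sInf_le ⟨hω, by omega⟩
    have h6 : ((sInf {k | ω ∈ A k ∧ b ^ n ≤ k} : ℕ) : ℝ) ≤ (b : ℝ) ^ n + r := by exact_mod_cast h5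
    have h7 : (r : ℝ) < jl (Real.log b + 1 / ((m : ℝ) + 1)) n := by exact_mod_cast hr
    have h8 : (jl (Real.log b + 1 / ((m : ℝ) + 1)) n : ℝ) ≤ (Real.log b + 1 / ((m : ℝ) + 1)) * (n * Real.log n) :=
      Nat.floor_le (by positivity)
    rw [div_lt_iff₀ h4]
    have h9 := mul_lt_mul_of_pos_right hm h4
    linarith
  · intro s' hs'
    have hT : Tendsto (fun m : ℕ => Real.log b - Real.log b / ((m : ℝ) + 2)) atTop (𝓝 (Real.log b)) := by
      have h1 : Tendsto (fun n : ℕ => (n : ℝ) + 2) atTop atTop :=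
        tendsto_atTop_add_const_right _ _ tendsto_natCast_atTop_atTop
      have h2 : Tendsto (fun n : ℕ => Real.log b / ((n : ℝ) + 2)) atTop (𝓝 0) := tendsto_const_nhds.div_atTop h1
      have h3 := h2.const_sub (Real.log b)
      rwa [sub_zero] at h3
    obtain ⟨m, hm⟩ := (hT.eventually_const_lt hs').exists
    obtain ⟨y, hy⟩ : ∃ y, y = Real.log b - Real.log b / ((m : ℝ) + 2) := ⟨_, rfl⟩
    have h2m := h2 b m hb
    rw [← hy] at hm h2m
    have hy0 : 0 < y := by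
      rw [hy]
      have h2 : Real.log b / ((m : ℝ) + 2) < Real.log b := by
        rw [div_lt_iff₀ (by positivity)]
        have : (0 : ℝ) ≤ m := Nat.cast_nonneg m
        nlinarith
      linarith
    refine (h2m.and_eventually (((jl_lim hy0).eventually_const_lt hm).and
      (tendsto_nlog.eventually_gt_atTop 0))).mono ?_
    rintro n ⟨h3, h4, h5⟩
    rw [cnt_zero_iff] at h3
    have hne : {k | ω ∈ A k ∧ b ^ n ≤ k}.Nonempty := by
      obtain ⟨k, hk1, hk2⟩ := hS.exists_gt (b ^ n)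
      exact ⟨k, hk1, hk2.le⟩
    obtain ⟨q1, q2⟩ := Nat.sInf_mem hne
    obtain ⟨q, hq⟩ : ∃ q, q = sInf {k | ω ∈ A k ∧ b ^ n ≤ k} := ⟨_, rfl⟩
    rw [← hq] at q1 q2 ⊢
    have h6 : b ^ n + jl y n ≤ q := by
      by_contra hcon
      have h7 := h3 (q - b ^ n) (by omega)
      have e : b ^ n - 1 + 1 + (q - b ^ n) = q := by have := hbn n; omega
      rw [e] at h7
      exact h7 q1
    have h7 : (b : ℝ) ^ n + jl y n ≤ q := by exact_mod_cast h6
    refine h4.trans_le ?_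
    apply div_le_div_of_nonneg_right _ h5.le
    linarith

end laws

/-- the number of chosen integers as the cardinality of a set -/
lemma aa_ncard (P : ℕ → ℕ) {b : ℕ} (hb : 2 ≤ b) (ω : Ω) (n : ℕ) :
    {k | ω ∈ A k ∧ b ^ n ≤ k ∧ k ≤ b ^ n + P n}.ncard = aa A P b ω n := by
  classical
  have hbn : 0 < b ^ n := by positivity
  have h1 : {k | ω ∈ A k ∧ b ^ n ≤ k ∧ k ≤ b ^ n + P n} =
      ((((Finset.range (P n + 1)).filter fun r => ω ∈ A (b ^ n - 1 + 1 + r)).image fun r => b ^ n + r :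
        Finset ℕ) : Set ℕ) := by
    ext k
    rw [Finset.coe_image, Set.mem_image]
    simp only [Finset.coe_filter, Finset.mem_range]
    constructor
    · rintro ⟨h1, h2, h3⟩
      refine ⟨k - b ^ n, ⟨by omega, ?_⟩, by omega⟩
      have e : b ^ n - 1 + 1 + (k - b ^ n) = k := by omega
      rw [e]
      exact h1
    · rintro ⟨r, ⟨h1, h2⟩, rfl⟩
      have e : b ^ n - 1 + 1 + r = b ^ n + r := by omega
      rw [e] at h2
      exact ⟨h2, by omega, by omega⟩
  rw [h1, Set.ncard_coe_finset, Finset.card_image_of_injective _ (fun a b h => by simpa using h),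
    Finset.card_filter]
  rfl

lemma II_contOn : ContinuousOn II (Set.Ioi 0) := by
  unfold II
  intro x hx
  have hx' : x ≠ 0 := (Set.mem_Ioi.1 hx).ne'
  apply ContinuousAt.continuousWithinAt
  fun_prop (disch := assumption)

lemma exists_u : ∃ u : ℝ, 1 / 12 < u ∧ u < 1 / 9 ∧ II u = Real.log 2 := by
  have h2 := Real.log_two_gt_d9
  have h2' := Real.log_two_lt_d9
  have h3 := Real.log_three_gt_d9
  have h3' := Real.log_three_lt_d9
  have e1 : II (1 / 12) = 11 / 12 - (2 * Real.log 2 + Real.log 3) / 12 := by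
    unfold II
    rw [one_div, Real.log_inv, show (12 : ℝ) = 2 ^ 2 * 3 by norm_num, Real.log_mul (by norm_num) (by norm_num),
      Real.log_pow]
    push_cast
    ring
  have e2 : II (1 / 9) = 8 / 9 - 2 * Real.log 3 / 9 := by
    unfold II
    rw [one_div, Real.log_inv, show (9 : ℝ) = 3 ^ 2 by norm_num, Real.log_pow]
    push_cast
    ring
  have hc : ContinuousOn II (Set.Icc (1 / 12 : ℝ) (1 / 9)) :=
    II_contOn.mono fun x hx => by
      have := hx.1
      show (0 : ℝ) < x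
      linarith
  obtain ⟨u, hu, hu2⟩ := intermediate_value_Ioo' (by norm_num : (1 / 12 : ℝ) ≤ 1 / 9) hc
    (show Real.log 2 ∈ Set.Ioo (II (1 / 9)) (II (1 / 12)) by
      rw [e1, e2]
      constructor <;> linarith)
  exact ⟨u, hu.1, hu.2, hu2⟩

lemma exists_v : ∃ v : ℝ, 9 / 4 < v ∧ v < 8 / 3 ∧ II v = Real.log 2 := by
  have h2 := Real.log_two_gt_d9
  have h2' := Real.log_two_lt_d9
  have h3 := Real.log_three_gt_d9
  have h3' := Real.log_three_lt_d9
  have e1 : II (9 / 4) = 9 / 4 * (2 * Real.log 3 - 2 * Real.log 2) - 5 / 4 := by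
    unfold II
    rw [show (9 / 4 : ℝ) = 3 ^ 2 / 2 ^ 2 by norm_num, Real.log_div (by norm_num) (by norm_num),
      Real.log_pow, Real.log_pow]
    push_cast
    ring
  have e2 : II (8 / 3) = 8 / 3 * (3 * Real.log 2 - Real.log 3) - 5 / 3 := by
    unfold II
    rw [show (8 / 3 : ℝ) = 2 ^ 3 / 3 by norm_num, Real.log_div (by norm_num) (by norm_num),
      Real.log_pow]
    push_cast
    ring
  have hc : ContinuousOn II (Set.Icc (9 / 4 : ℝ) (8 / 3)) :=
    II_contOn.mono fun x hx => by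
      have := hx.1
      show (0 : ℝ) < x
      linarith
  obtain ⟨u, hu, hu2⟩ := intermediate_value_Ioo (by norm_num : (9 / 4 : ℝ) ≤ 8 / 3) hc
    (show Real.log 2 ∈ Set.Ioo (II (9 / 4)) (II (8 / 3)) by
      rw [e1, e2]
      constructor <;> linarith)
  exact ⟨u, hu.1, hu.2, hu2⟩

end Pool.Agent.N953.P2
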